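import Mathlib

namespace Pool.Agent.Results.MP_acc225_nt.FarSquares

open Finset Filter Topology
open scoped Classical

noncomputable section

/-- natural number norm -/
def nm (z : GaussianInt) : ℕ := z.norm.natAbs

lemma nm_mul (z w : GaussianInt) : nm (z * w) = nm z * nm w := by
  simp [nm, Zsqrtd.norm_mul, Int.natAbs_mul]

lemma nm_pow (z : GaussianInt) (k : ℕ) : nm (z ^ k) = nm z ^ k := by
  induction k with
  | zero => simp [nm]
  | succ k ih => rw [pow_succ, nm_mul, ih, pow_succ]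

lemma nm_cast (z : GaussianInt) : (nm z : ℤ) = z.re ^ 2 + z.im ^ 2 := by
  unfold nm
  rw [GaussianInt.abs_natCast_norm, Zsqrtd.norm_def]; ring

lemma nm_eq_zero {z : GaussianInt} : nm z = 0 ↔ z = 0 := by
  unfold nm
  rw [Int.natAbs_eq_zero, GaussianInt.norm_eq_zero]

lemma nm_pos {z : GaussianInt} (h : z ≠ 0) : 0 < nm z :=
  Nat.pos_of_ne_zero (fun h' => h (nm_eq_zero.mp h'))

lemma nm_unit {z : GaussianInt} : nm z = 1 ↔ IsUnit z := Zsqrtd.norm_eq_one_iff

lemma nm_dvd {z w : GaussianInt} (h : z ∣ w) : nm z ∣ nm w := by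
  obtain ⟨c, rfl⟩ := h
  exact ⟨nm c, nm_mul z c⟩

lemma nm_le_of_dvd {z w : GaussianInt} (h : z ∣ w) (hw : w ≠ 0) : nm z ≤ nm w :=
  Nat.le_of_dvd (nm_pos hw) (nm_dvd h)

lemma two_le_nm {p : GaussianInt} (hp : Prime p) : 2 ≤ nm p := by
  have h0 : nm p ≠ 0 := fun h => hp.ne_zero (nm_eq_zero.mp h)
  have h1 : nm p ≠ 1 := fun h => hp.not_isUnit (nm_unit.mp h)
  omega

/-- the open square of half-side `N` around `c` -/
def sq (c : GaussianInt) (N : ℕ) : Finset GaussianInt :=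
  ((Finset.Ioo (c.re - N) (c.re + N)) ×ˢ (Finset.Ioo (c.im - N) (c.im + N))).map
    ⟨fun p => (⟨p.1, p.2⟩ : GaussianInt), fun p q h => by
      rw [Zsqrtd.ext_iff] at h
      exact Prod.ext h.1 h.2⟩

lemma mem_sq {c z : GaussianInt} {N : ℕ} :
    z ∈ sq c N ↔ (c.re - N < z.re ∧ z.re < c.re + N) ∧ (c.im - N < z.im ∧ z.im < c.im + N) := by
  unfold sq
  simp only [Finset.mem_map, Finset.mem_product, Finset.mem_Ioo, Function.Embedding.coeFn_mk,
    Prod.exists]
  constructor
  · rintro ⟨a, b, h, rfl⟩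
    exact h
  · intro h
    exact ⟨z.re, z.im, h, rfl⟩

lemma card_sq (c : GaussianInt) (N : ℕ) : (sq c N).card = (2 * N - 1) ^ 2 := by
  unfold sq
  rw [Finset.card_map, Finset.card_product, Int.card_Ioo, Int.card_Ioo]
  have h1 : (c.re + N - (c.re - N) - 1).toNat = 2 * N - 1 := by omega
  have h2 : (c.im + N - (c.im - N) - 1).toNat = 2 * N - 1 := by omega
  rw [h1, h2]; ring

/-- packing -/
lemma packing {w : GaussianInt} {s : ℕ} (hs : 2 * ((s : ℤ) - 1) ^ 2 < nm w) (_hs1 : 1 ≤ s)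
    (E F : Finset GaussianInt)
    (h : ∀ z ∈ E, ∀ a b : ℕ, a < s → b < s → z + ⟨a, b⟩ ∈ F) :
    (E.filter (fun z => w ∣ z)).card * (s * s) ≤ F.card := by
  classical
  have : ((E.filter (fun z => w ∣ z)) ×ˢ (range s ×ˢ range s)).card ≤ F.card := by
    apply Finset.card_le_card_of_injOn (fun q => q.1 + ⟨q.2.1, q.2.2⟩)
    · rintro ⟨z, a, b⟩ hq
      simp only [coe_product, Set.mem_prod, mem_coe, mem_filter, mem_range] at hq
      exact h z hq.1.1 a b hq.2.1 hq.2.2
    · rintro ⟨z, a, b⟩ hq ⟨z', a', b'⟩ hq' heq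
      simp only [coe_product, Set.mem_prod, mem_coe, mem_filter, mem_range] at hq hq' heq
      have hd : w ∣ (⟨(a : ℤ) - a', (b : ℤ) - b'⟩ : GaussianInt) := by
        have e : (⟨(a : ℤ) - a', (b : ℤ) - b'⟩ : GaussianInt) = z' - z := by
          have h1 := congrArg Zsqrtd.re heq
          have h2 := congrArg Zsqrtd.im heq
          simp at h1 h2
          ext
          · simp; linarith
          · simp; linarith
        rw [e]
        exact dvd_sub hq'.1.2 hq.1.2
      have hz : (⟨(a : ℤ) - a', (b : ℤ) - b'⟩ : GaussianInt) = 0 := by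
        by_contra hne
        have hle := nm_le_of_dvd hd hne
        have hle' : (nm w : ℤ) ≤ nm (⟨(a : ℤ) - a', (b : ℤ) - b'⟩ : GaussianInt) := by
          exact_mod_cast hle
        rw [nm_cast (⟨(a : ℤ) - a', (b : ℤ) - b'⟩ : GaussianInt)] at hle'
        have e1 : ((a : ℤ) - a') ^ 2 ≤ ((s : ℤ) - 1) ^ 2 := by
          apply sq_le_sq'
          · have := hq.2.1; have := hq'.2.1; push_cast; omega
          · have := hq.2.1; have := hq'.2.1; push_cast; omega
        have e2 : ((b : ℤ) - b') ^ 2 ≤ ((s : ℤ) - 1) ^ 2 := by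
          apply sq_le_sq'
          · have := hq.2.2; have := hq'.2.2; omega
          · have := hq.2.2; have := hq'.2.2; omega
        linarith
      rw [Zsqrtd.ext_iff] at hz
      simp at hz
      have ha : a = a' := by omega
      have hb : b = b' := by omega
      subst ha; subst hb
      have : z = z' := by
        have := heq
        simpa using this
      rw [this]
  rw [card_product, card_product, card_range] at this
  exact this

/-- choice of the packing side -/
lemma exists_side {w : GaussianInt} (hw : w ≠ 0) :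
    ∃ s : ℕ, 1 ≤ s ∧ 2 * ((s : ℤ) - 1) ^ 2 < nm w ∧ nm w ≤ 2 * s ^ 2 := by
  have hν : 0 < nm w := nm_pos hw
  have hex : ∃ s : ℕ, nm w ≤ 2 * s ^ 2 := ⟨nm w, by nlinarith⟩
  classical
  refine ⟨Nat.find hex, ?_, ?_, Nat.find_spec hex⟩
  · rw [Nat.one_le_iff_ne_zero]
    intro h
    have := Nat.find_spec hex
    rw [h] at this; simp at this; omega
  · have h1 : 1 ≤ Nat.find hex := by
      rw [Nat.one_le_iff_ne_zero]
      intro h
      have := Nat.find_spec hex
      rw [h] at this; simp at this; omega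
    have h2 := Nat.find_min hex (m := Nat.find hex - 1) (by omega)
    push Not at h2
    have h3 : (2 * ((Nat.find hex - 1 : ℕ) : ℤ) ^ 2) < nm w := by exact_mod_cast h2
    rwa [Nat.cast_sub h1, Nat.cast_one] at h3

/-- crude count of multiples -/
lemma count_crude (c : GaussianInt) (N : ℕ) {w : GaussianInt} (hw : w ≠ 0) :
    (((sq c N).filter (fun z => w ∣ z)).card : ℝ) ≤ 16 * (N : ℝ) ^ 2 / nm w + 8 := by
  obtain ⟨s, hs1, hs2, hs3⟩ := exists_side hw
  have hp := packing hs2 hs1 (sq c N) (sq c (N + s)) (by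
    intro z hz a b ha hb
    rw [mem_sq] at hz ⊢
    simp only [Zsqrtd.re_add, Zsqrtd.im_add]
    push_cast
    omega)
  rw [card_sq] at hp
  have hνpos : (0 : ℝ) < nm w := by exact_mod_cast nm_pos hw
  have hp' : (((sq c N).filter (fun z => w ∣ z)).card : ℝ) * (s * s) ≤ (2 * (N + s)) ^ 2 := by
    have h1 : (2 * (N + s) - 1) ^ 2 ≤ (2 * (N + s)) ^ 2 := Nat.pow_le_pow_left (by omega) 2
    exact_mod_cast hp.trans h1
  have hs3' : (nm w : ℝ) ≤ 2 * (s : ℝ) ^ 2 := by exact_mod_cast hs3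
  have hspos : (0 : ℝ) < s := by exact_mod_cast hs1
  set A := (((sq c N).filter (fun z => w ∣ z)).card : ℝ) with hA
  have hA0 : 0 ≤ A := by rw [hA]; positivity
  -- A s² ≤ 8 N² + 8 s²
  have h2 : A * (s * s) ≤ 8 * (N : ℝ) ^ 2 + 8 * (s : ℝ) ^ 2 := by
    refine hp'.trans ?_
    nlinarith [sq_nonneg ((N : ℝ) - s)]
  have h3 : (A - 8) * (s : ℝ) ^ 2 ≤ 8 * (N : ℝ) ^ 2 := by nlinarith
  rcases le_or_gt A 8 with h | h
  · have : 0 ≤ 16 * (N : ℝ) ^ 2 / nm w := by positivity
    linarith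
  · have h4 : (A - 8) * nm w ≤ 16 * (N : ℝ) ^ 2 := by
      have : (A - 8) * nm w ≤ (A - 8) * (2 * (s : ℝ) ^ 2) :=
        mul_le_mul_of_nonneg_left hs3' (by linarith)
      linarith
    have h5 : A - 8 ≤ 16 * (N : ℝ) ^ 2 / nm w := by
      rw [le_div_iff₀ hνpos]; exact h4
    linarith

/-- comparison of counts of multiples in a translated square and in the centred square -/
lemma count_compare (c : GaussianInt) (N : ℕ) {w : GaussianInt} (hw : w ≠ 0) :
    (((sq c N).filter (fun z => w ∣ z)).card : ℝ) ≤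
      ((((sq 0 N).erase 0).filter (fun z => w ∣ z)).card : ℝ) + 37 + 46 * N / √(nm w) := by
  classical
  obtain ⟨s, hs1, hs2, hs3⟩ := exists_side hw
  have hνpos : (0 : ℝ) < nm w := by exact_mod_cast nm_pos hw
  -- step 1: translate
  have step1 : ((sq c N).filter (fun z => w ∣ z)).card ≤
      ((sq 0 (N + 2 * s)).filter (fun z => w ∣ z)).card := by
    apply Finset.card_le_card_of_injOn (fun z => z - w * (c / w))
    · intro z hz
      simp only [coe_filter, Set.mem_ofPred_eq, mem_sq] at hz ⊢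
      have hm := GaussianInt.norm_mod_lt c hw
      rw [GaussianInt.mod_def] at hm
      set r := c - w * (c / w) with hr
      have hre : z - w * (c / w) = (z - c) + r := by rw [hr]; ring
      have hmr : (r.re ^ 2 + r.im ^ 2 : ℤ) < nm w := by
        rw [← nm_cast]
        unfold nm
        rw [GaussianInt.abs_natCast_norm, GaussianInt.abs_natCast_norm]; exact hm
      have hs3' : (nm w : ℤ) ≤ 2 * (s : ℤ) ^ 2 := by exact_mod_cast hs3
      have hrr : r.re ^ 2 < (2 * (s : ℤ)) ^ 2 := by nlinarith [sq_nonneg r.im]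
      have hri : r.im ^ 2 < (2 * (s : ℤ)) ^ 2 := by nlinarith [sq_nonneg r.re]
      have hrr' := abs_lt.mp (abs_lt_of_sq_lt_sq hrr (by positivity))
      have hri' := abs_lt.mp (abs_lt_of_sq_lt_sq hri (by positivity))
      refine ⟨?_, dvd_sub hz.2 (dvd_mul_right _ _)⟩
      rw [hre]
      simp only [Zsqrtd.re_add, Zsqrtd.im_add, Zsqrtd.re_sub, Zsqrtd.im_sub, Zsqrtd.re_zero,
        Zsqrtd.im_zero]
      push_cast
      omega
    · intro z _ z' _ h
      simpa using h
  -- step 2: split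
  have step2 : ((sq 0 (N + 2 * s)).filter (fun z => w ∣ z)).card ≤
      (((sq 0 N).erase 0).filter (fun z => w ∣ z)).card + 1 +
      (((sq 0 (N + 2 * s)) \ (sq 0 N)).filter (fun z => w ∣ z)).card := by
    have hsub : (sq 0 (N + 2 * s)).filter (fun z => w ∣ z) ⊆
        ((((sq 0 N).erase 0).filter (fun z => w ∣ z)) ∪ {0}) ∪
        (((sq 0 (N + 2 * s)) \ (sq 0 N)).filter (fun z => w ∣ z)) := by
      intro z hz
      simp only [mem_union, mem_filter, mem_erase, Finset.mem_sdiff, mem_singleton] at hz ⊢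
      tauto
    refine (card_le_card hsub).trans ((card_union_le _ _).trans ?_)
    gcongr
    exact (card_union_le _ _).trans (by simp)
  -- step 3: pack the annulus
  have step3 : ((((sq 0 (N + 2 * s)) \ (sq 0 N)).filter (fun z => w ∣ z)).card : ℝ) * (s * s) ≤
      32 * N * s + 36 * (s : ℝ) ^ 2 := by
    have hp := packing hs2 hs1 ((sq 0 (N + 2 * s)) \ (sq 0 N))
      ((sq 0 (N + 3 * s)) \ (sq 0 (N - s))) (by
        intro z hz a b ha hb
        rw [Finset.mem_sdiff, mem_sq, mem_sq] at hz ⊢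
        simp only [Zsqrtd.re_add, Zsqrtd.im_add, Zsqrtd.re_zero, Zsqrtd.im_zero] at hz ⊢
        push_cast at hz ⊢
        omega)
    have hsub : sq 0 (N - s) ⊆ sq 0 (N + 3 * s) := by
      intro z hz
      rw [mem_sq] at hz ⊢
      simp only [Zsqrtd.re_zero, Zsqrtd.im_zero] at hz ⊢
      push_cast
      omega
    have hc : (((sq 0 (N + 3 * s)) \ (sq 0 (N - s))).card : ℝ) ≤ 32 * N * s + 36 * (s : ℝ) ^ 2 := by
      rcases le_or_gt N s with hNs | hNs
      · have h1 : ((sq 0 (N + 3 * s)) \ (sq 0 (N - s))).card ≤ (2 * (N + 3 * s)) ^ 2 := by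
          refine (card_le_card sdiff_subset).trans ?_
          rw [card_sq]
          exact Nat.pow_le_pow_left (by omega) 2
        have h2 : (((sq 0 (N + 3 * s)) \ (sq 0 (N - s))).card : ℝ) ≤ (2 * (N + 3 * s)) ^ 2 := by
          exact_mod_cast h1
        have hNs' : (N : ℝ) ≤ s := by exact_mod_cast hNs
        have hN0 : (0 : ℝ) ≤ N := by positivity
        nlinarith
      · rw [card_sdiff_of_subset hsub, card_sq, card_sq, Nat.cast_sub (Nat.pow_le_pow_left (by omega) 2)]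
        have e1 : ((2 * (N + 3 * s) - 1 : ℕ) : ℝ) = 2 * (N + 3 * s) - 1 := by
          rw [Nat.cast_sub (by omega)]; push_cast; ring
        have e2 : ((2 * (N - s) - 1 : ℕ) : ℝ) = 2 * (N - s) - 1 := by
          rw [Nat.cast_sub (by omega), Nat.cast_mul, Nat.cast_sub hNs.le]; push_cast; ring
        rw [Nat.cast_pow, Nat.cast_pow, e1, e2]
        have hs0 : (0 : ℝ) ≤ s := by positivity
        nlinarith
    refine le_trans ?_ hc
    exact_mod_cast hp
  have hspos : (0 : ℝ) < s := by exact_mod_cast hs1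
  have hs3' : (nm w : ℝ) ≤ 2 * (s : ℝ) ^ 2 := by exact_mod_cast hs3
  set B := ((((sq 0 (N + 2 * s)) \ (sq 0 N)).filter (fun z => w ∣ z)).card : ℝ) with hB
  have hB1 : B ≤ 32 * N / s + 36 := by
    have : B * s ≤ 32 * N + 36 * s := by
      have h := step3
      have : (B * s) * s ≤ (32 * N + 36 * s) * s := by nlinarith
      exact le_of_mul_le_mul_right this hspos
    rw [← sub_le_iff_le_add, le_div_iff₀ hspos]
    linarith
  have hsq : √(nm w) ≤ 1.42 * s := by
    rw [Real.sqrt_le_left (by positivity)]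
    nlinarith
  have hsqpos : 0 < √(nm w : ℝ) := Real.sqrt_pos.mpr hνpos
  have hB2 : 32 * (N : ℝ) / s ≤ 46 * N / √(nm w) := by
    rw [div_le_div_iff₀ hspos hsqpos]
    have hN0 : (0 : ℝ) ≤ N := by positivity
    nlinarith [mul_le_mul_of_nonneg_left hsq hN0]
  have h1 : (((sq c N).filter (fun z => w ∣ z)).card : ℝ) ≤
      ((((sq 0 N).erase 0).filter (fun z => w ∣ z)).card : ℝ) + 1 + B := by
    rw [hB]
    exact_mod_cast step1.trans step2
  linarith



/-- sum of `log nm p` over the prime powers `p ^ a`, `a ≤ A`, dividing `z` -/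
def S (P : Finset GaussianInt) (A : ℕ) (z : GaussianInt) : ℝ :=
  ∑ p ∈ P, ∑ a ∈ Finset.Icc 1 A, if p ^ a ∣ z then Real.log (nm p) else 0

lemma inner_sum {p z : GaussianInt} (hp : Prime p) (hz : z ≠ 0) (A : ℕ) :
    (∑ a ∈ Finset.Icc 1 A, if p ^ a ∣ z then Real.log (nm p) else 0) =
      (min A (multiplicity p z) : ℕ) * Real.log (nm p) := by
  have hf : FiniteMultiplicity p z := FiniteMultiplicity.of_prime_left hp hz
  rw [← Finset.sum_filter]
  have : (Finset.Icc 1 A).filter (fun a => p ^ a ∣ z) = Finset.Icc 1 (min A (multiplicity p z)) := by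
    ext a
    simp only [Finset.mem_filter, Finset.mem_Icc, le_min_iff, hf.pow_dvd_iff_le_multiplicity]
    tauto
  rw [this, Finset.sum_const, Nat.card_Icc, nsmul_eq_mul]
  simp

lemma log_nm_prod (P : Finset GaussianInt) (m : GaussianInt → ℕ) (hP : ∀ p ∈ P, Prime p) :
    Real.log (nm (∏ p ∈ P, p ^ m p)) = ∑ p ∈ P, (m p : ℝ) * Real.log (nm p) := by
  have : (nm (∏ p ∈ P, p ^ m p) : ℝ) = ∏ p ∈ P, (nm p : ℝ) ^ m p := by
    have h : ∀ Q : Finset GaussianInt, nm (∏ p ∈ Q, p ^ m p) = ∏ p ∈ Q, (nm p) ^ m p := by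
      intro Q
      induction Q using Finset.induction_on with
      | empty => simp [nm]
      | insert a s ha ih => rw [prod_insert ha, prod_insert ha, nm_mul, ih, nm_pow]
    rw [h]; push_cast; rfl
  rw [this, Real.log_prod]
  · apply Finset.sum_congr rfl
    intro p _
    rw [Real.log_pow]
  · intro p hp
    have := two_le_nm (hP p hp)
    positivity

lemma pairwise_coprime {P : Finset GaussianInt} (hP : ∀ p ∈ P, Prime p)
    (hna : ∀ p ∈ P, ∀ q ∈ P, Associated p q → p = q) (m : GaussianInt → ℕ) :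
    ((P : Set GaussianInt)).Pairwise (Function.onFun IsCoprime (fun p => p ^ m p)) := by
  intro p hp q hq hne
  apply IsCoprime.pow
  rw [(hP p hp).coprime_iff_not_dvd]
  intro h
  exact hne (hna p hp q hq ((hP p hp).associated_of_dvd (hP q hq) h))

lemma S_le {P : Finset GaussianInt} (hP : ∀ p ∈ P, Prime p)
    (hna : ∀ p ∈ P, ∀ q ∈ P, Associated p q → p = q) (A : ℕ) {z : GaussianInt} (hz : z ≠ 0) :
    S P A z ≤ Real.log (nm z) := by
  unfold S
  rw [Finset.sum_congr rfl (fun p hp => inner_sum (hP p hp) hz A), ← log_nm_prod P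
    (fun p => min A (multiplicity p z)) hP]
  have hd : (∏ p ∈ P, p ^ (min A (multiplicity p z))) ∣ z := by
    apply Finset.prod_dvd_of_coprime (pairwise_coprime hP hna _)
    intro p hp
    have hf : FiniteMultiplicity p z := FiniteMultiplicity.of_prime_left (hP p hp) hz
    rw [hf.pow_dvd_iff_le_multiplicity]
    exact min_le_right _ _
  have hle := nm_le_of_dvd hd hz
  apply Real.log_le_log
  · have : (∏ p ∈ P, p ^ (min A (multiplicity p z))) ≠ 0 := fun h0 => by
      rw [h0] at hd; exact hz (zero_dvd_iff.mp hd)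
    exact_mod_cast nm_pos this
  · exact_mod_cast hle

lemma le_S {P : Finset GaussianInt} (hP : ∀ p ∈ P, Prime p)
    (hna : ∀ p ∈ P, ∀ q ∈ P, Associated p q → p = q) {A : ℕ} {z : GaussianInt} (hz : z ≠ 0)
    (hall : ∀ q : GaussianInt, Prime q → q ∣ z → ∃ p ∈ P, Associated p q)
    (hA : nm z < 2 ^ (A + 1)) :
    Real.log (nm z) ≤ S P A z := by
  unfold S
  rw [Finset.sum_congr rfl (fun p hp => inner_sum (hP p hp) hz A), ← log_nm_prod P
    (fun p => min A (multiplicity p z)) hP]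
  have hmin : ∀ p ∈ P, min A (multiplicity p z) = multiplicity p z := by
    intro p hp
    have hf : FiniteMultiplicity p z := FiniteMultiplicity.of_prime_left (hP p hp) hz
    have h1 : p ^ multiplicity p z ∣ z := by rw [hf.pow_dvd_iff_le_multiplicity]
    have h2 := nm_le_of_dvd h1 hz
    rw [nm_pow] at h2
    have h3 : 2 ^ multiplicity p z ≤ nm p ^ multiplicity p z :=
      Nat.pow_le_pow_left (two_le_nm (hP p hp)) _
    have h4 : 2 ^ multiplicity p z < 2 ^ (A + 1) := lt_of_le_of_lt (h3.trans h2) hA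
    have h5 := (Nat.pow_lt_pow_iff_right (by norm_num)).mp h4
    omega
  have hd : (∏ p ∈ P, p ^ (min A (multiplicity p z))) ∣ z := by
    apply Finset.prod_dvd_of_coprime (pairwise_coprime hP hna _)
    intro p hp
    have hf : FiniteMultiplicity p z := FiniteMultiplicity.of_prime_left (hP p hp) hz
    rw [hf.pow_dvd_iff_le_multiplicity]
    exact min_le_right _ _
  obtain ⟨u, hu⟩ := hd
  have hu0 : u ≠ 0 := by
    rintro rfl
    rw [mul_zero] at hu; exact hz hu
  have hunit : IsUnit u := by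
    by_contra hnu
    obtain ⟨q, hq, hqu⟩ := WfDvdMonoid.exists_irreducible_factor hnu hu0
    have hqp : Prime q := hq.prime
    have hqz : q ∣ z := hqu.trans (hu ▸ dvd_mul_left _ _)
    obtain ⟨p, hp, hpq⟩ := hall q hqp hqz
    have hpu : p ∣ u := hpq.dvd.trans hqu
    have hf : FiniteMultiplicity p z := FiniteMultiplicity.of_prime_left (hP p hp) hz
    have h1 : p ^ (multiplicity p z + 1) ∣ z := by
      have h0 : p ^ (multiplicity p z + 1) ∣
          (∏ p ∈ P, p ^ (min A (multiplicity p z))) * u := by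
        rw [pow_succ]
        apply mul_dvd_mul _ hpu
        have := Finset.dvd_prod_of_mem (fun p => p ^ (min A (multiplicity p z))) hp
        simp only [hmin p hp] at this
        exact this
      exact h0.trans (dvd_of_eq hu.symm)
    rw [hf.pow_dvd_iff_le_multiplicity] at h1
    omega
  have hnm : nm z = nm (∏ p ∈ P, p ^ (min A (multiplicity p z))) := by
    conv_lhs => rw [hu]
    rw [nm_mul, nm_unit.mpr hunit, mul_one]
  rw [hnm]

/-- the half-open first quadrant -/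
def quad (z : GaussianInt) : Prop := 0 < z.re ∧ 0 ≤ z.im

lemma norm_one_cases {u : GaussianInt} (hu : IsUnit u) :
    (u.re = 1 ∧ u.im = 0) ∨ (u.re = -1 ∧ u.im = 0) ∨ (u.re = 0 ∧ u.im = 1) ∨
      (u.re = 0 ∧ u.im = -1) := by
  have h1 : (nm u : ℤ) = 1 := by exact_mod_cast nm_unit.mpr hu
  rw [nm_cast] at h1
  have hr : u.re ^ 2 ≤ 1 := by nlinarith [sq_nonneg u.im]
  have hi : u.im ^ 2 ≤ 1 := by nlinarith [sq_nonneg u.re]
  have hr1 : -1 ≤ u.re ∧ u.re ≤ 1 := abs_le.mp (by
    have := sq_le_one_iff_abs_le_one u.re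
    exact this.mp hr)
  have hi1 : -1 ≤ u.im ∧ u.im ≤ 1 := abs_le.mp (by
    have := sq_le_one_iff_abs_le_one u.im
    exact this.mp hi)
  obtain ⟨a1, a2⟩ := hr1
  obtain ⟨b1, b2⟩ := hi1
  have ha : u.re = -1 ∨ u.re = 0 ∨ u.re = 1 := by omega
  have hb : u.im = -1 ∨ u.im = 0 ∨ u.im = 1 := by omega
  rcases ha with ha | ha | ha <;> rcases hb with hb | hb | hb <;> rw [ha, hb] at h1 <;>
    norm_num at h1 <;> simp [ha, hb]

lemma quad_unique {z w : GaussianInt} (hz : quad z) (hw : quad w) (h : Associated z w) : z = w := by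
  obtain ⟨u, hu⟩ := h
  have hc := norm_one_cases u.isUnit
  obtain ⟨hz1, hz2⟩ := hz
  obtain ⟨hw1, hw2⟩ := hw
  have hre : w.re = z.re * (u : GaussianInt).re - z.im * (u : GaussianInt).im := by
    rw [← hu]; simp [Zsqrtd.re_mul]; ring
  have him : w.im = z.re * (u : GaussianInt).im + z.im * (u : GaussianInt).re := by
    rw [← hu]; simp [Zsqrtd.im_mul]
  rcases hc with ⟨h1, h2⟩ | ⟨h1, h2⟩ | ⟨h1, h2⟩ | ⟨h1, h2⟩ <;> rw [h1, h2] at hre him
  · ext
    · rw [hre]; ring
    · rw [him]; ring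
  · omega
  · omega
  · omega

lemma exists_quad {z : GaussianInt} (hz : z ≠ 0) : ∃ w, quad w ∧ Associated w z := by
  have hunit : ∀ (u v : GaussianInt), v * u = 1 → ∀ w, w = z * u → Associated w z := by
    intro u v huv w hw
    refine ⟨⟨v, u, huv, by rw [mul_comm]; exact huv⟩, ?_⟩
    simp only [hw]
    rw [mul_assoc, mul_comm u v, huv, mul_one]
  by_cases h1 : 0 < z.re ∧ 0 ≤ z.im
  · exact ⟨z, h1, Associated.refl _⟩
  by_cases h2 : 0 < z.im ∧ z.re ≤ 0
  · refine ⟨⟨z.im, -z.re⟩, ⟨h2.1, by simp; omega⟩, hunit ⟨0, -1⟩ ⟨0, 1⟩ (by ext <;> simp) _ ?_⟩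
    ext <;> simp [Zsqrtd.re_mul, Zsqrtd.im_mul]
  by_cases h3 : z.re < 0 ∧ z.im ≤ 0
  · refine ⟨⟨-z.re, -z.im⟩, ⟨by simp; omega, by simp; omega⟩,
      hunit ⟨-1, 0⟩ ⟨-1, 0⟩ (by ext <;> simp) _ ?_⟩
    ext <;> simp [Zsqrtd.re_mul, Zsqrtd.im_mul]
  · have h4 : z.im < 0 ∧ 0 ≤ z.re := by
      have : ¬ (z.re = 0 ∧ z.im = 0) := by
        rintro ⟨a, b⟩
        apply hz
        ext <;> simp [a, b]
      omega
    refine ⟨⟨-z.im, z.re⟩, ⟨by simp; omega, by simp; omega⟩,
      hunit ⟨0, 1⟩ ⟨0, -1⟩ (by ext <;> simp) _ ?_⟩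
    ext <;> simp [Zsqrtd.re_mul, Zsqrtd.im_mul]

/-- representatives of the primes of norm at most `Y` -/
def PR (Y : ℕ) : Finset GaussianInt :=
  (sq 0 (Y + 1)).filter (fun z => Prime z ∧ quad z ∧ nm z ≤ Y)

lemma mem_PR {Y : ℕ} {z : GaussianInt} : z ∈ PR Y ↔ Prime z ∧ quad z ∧ nm z ≤ Y := by
  unfold PR
  rw [Finset.mem_filter]
  constructor
  · exact fun h => h.2
  · intro h
    refine ⟨?_, h⟩
    have h1 : (nm z : ℤ) ≤ Y := by exact_mod_cast h.2.2
    rw [nm_cast] at h1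
    rw [mem_sq]
    simp only [Zsqrtd.re_zero, Zsqrtd.im_zero]
    push_cast
    refine ⟨⟨?_, ?_⟩, ⟨?_, ?_⟩⟩ <;> nlinarith [sq_nonneg z.re, sq_nonneg z.im, sq_nonneg (z.re - 1), sq_nonneg (z.im - 1), sq_nonneg (z.re + 1), sq_nonneg (z.im + 1)]

lemma PR_prime {Y : ℕ} : ∀ p ∈ PR Y, Prime p := fun _ h => (mem_PR.mp h).1

lemma PR_na {Y : ℕ} : ∀ p ∈ PR Y, ∀ q ∈ PR Y, Associated p q → p = q :=
  fun _ hp _ hq h => quad_unique (mem_PR.mp hp).2.1 (mem_PR.mp hq).2.1 h

lemma nm_associated {z w : GaussianInt} (h : Associated z w) : nm z = nm w := by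
  obtain ⟨u, hu⟩ := h
  rw [← hu, nm_mul, nm_unit.mpr u.isUnit, mul_one]

lemma PR_exists {Y : ℕ} {q : GaussianInt} (hq : Prime q) (hY : nm q ≤ Y) :
    ∃ p ∈ PR Y, Associated p q := by
  obtain ⟨w, hw, ha⟩ := exists_quad hq.ne_zero
  exact ⟨w, mem_PR.mpr ⟨ha.symm.prime hq, hw, (nm_associated ha).trans_le hY⟩, ha⟩

lemma prime_nm {z : GaussianInt} (hz : Prime z) (hq : quad z) (him : z.im ≠ 0) :
    (nm z).Prime := by
  have hcast : ((nm z : ℕ) : GaussianInt) = z * star z := by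
    unfold nm
    rw [← Zsqrtd.norm_eq_mul_conj, GaussianInt.natCast_natAbs_norm]
  have hex : ∃ n : ℕ, 0 < n ∧ z ∣ (n : GaussianInt) :=
    ⟨nm z, nm_pos hz.ne_zero, hcast ▸ dvd_mul_right _ _⟩
  obtain ⟨hn0, hnz⟩ := Nat.find_spec hex
  have hmin := fun m (hm : m < Nat.find hex) => Nat.find_min hex hm
  generalize Nat.find hex = n at hn0 hnz hmin
  have hn1 : n ≠ 1 := by
    rintro rfl
    rw [Nat.cast_one] at hnz
    exact hz.not_isUnit (isUnit_of_dvd_one hnz)
  have hnp : n.Prime := by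
    by_contra hnp
    obtain ⟨a, ha1, ha2, ha3⟩ : ∃ a, a ∣ n ∧ a ≠ 1 ∧ a ≠ n := by
      refine ⟨n.minFac, Nat.minFac_dvd n, ?_, ?_⟩
      · intro h; exact hn1 (Nat.minFac_eq_one_iff.mp h)
      · intro h
        exact hnp (h ▸ Nat.minFac_prime hn1)
    obtain ⟨b, hb⟩ := ha1
    have ha0 : 0 < a := Nat.pos_of_ne_zero (by rintro rfl; simp at hb; omega)
    have hb0 : 0 < b := Nat.pos_of_ne_zero (by rintro rfl; simp at hb; omega)
    have hb1 : b ≠ 1 := by rintro rfl; simp at hb; omega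
    have hlt1 : a < n := by rw [hb]; exact lt_mul_of_one_lt_right ha0 (by omega)
    have hlt2 : b < n := by rw [hb]; exact lt_mul_of_one_lt_left hb0 (by omega)
    rw [hb, Nat.cast_mul] at hnz
    rcases hz.dvd_or_dvd hnz with h | h
    · exact hmin a hlt1 ⟨ha0, h⟩
    · exact hmin b hlt2 ⟨hb0, h⟩
  have hnn : nm (n : GaussianInt) = n ^ 2 := by
    have : ((nm (n : GaussianInt) : ℕ) : ℤ) = (n : ℤ) ^ 2 := by
      rw [nm_cast]; simp
    exact_mod_cast this
  have hdv : nm z ∣ n ^ 2 := hnn ▸ nm_dvd hnz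
  obtain ⟨k, hk, hk'⟩ := (Nat.dvd_prime_pow hnp).mp hdv
  interval_cases k
  · exfalso
    have := two_le_nm hz
    rw [hk'] at this; simp at this
  · rw [hk', pow_one]; exact hnp
  · exfalso
    obtain ⟨u, hu⟩ := hnz
    have h1 : nm z * nm u = n ^ 2 := by rw [← nm_mul, ← hu, hnn]
    have h2 : nm u = 1 := by
      rw [hk'] at h1
      have : 0 < n ^ 2 := by positivity
      exact Nat.eq_of_mul_eq_mul_left this (by rw [h1, mul_one])
    have hu' := nm_unit.mp h2
    have hass : Associated z (n : GaussianInt) := by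
      obtain ⟨v, rfl⟩ := hu'
      exact ⟨v, hu.symm⟩
    have hqn : quad (n : GaussianInt) := by
      unfold quad; simp; omega
    have := quad_unique hq hqn hass
    rw [this] at him
    simp at him

lemma quad_prime_inj {z w : GaussianInt} (hz : Prime z) (hw : Prime w) (hqz : quad z)
    (hqw : quad w) (hiz : z.im ≠ 0) (hiw : w.im ≠ 0) (hn : nm z = nm w)
    (hb : z.re < z.im ↔ w.re < w.im) : z = w := by
  have hcast : ∀ z : GaussianInt, ((nm z : ℕ) : GaussianInt) = z * star z := by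
    intro z
    unfold nm
    rw [← Zsqrtd.norm_eq_mul_conj, GaussianInt.natCast_natAbs_norm]
  have hd : w ∣ z * star z := by
    rw [← hcast z, hn, hcast w]; exact dvd_mul_right _ _
  have hstar : nm (star z) = nm z := by
    unfold nm; rw [Zsqrtd.norm_conj]
  have hass : ∀ y : GaussianInt, nm y = nm w → w ∣ y → Associated w y := by
    intro y hy hwy
    obtain ⟨u, hu⟩ := hwy
    have h1 : nm w * nm u = nm w := by rw [← nm_mul, ← hu, hy]
    have h2 : nm u = 1 := by
      have : 0 < nm w := nm_pos hw.ne_zero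
      exact Nat.eq_of_mul_eq_mul_left this (by rw [h1, mul_one])
    obtain ⟨v, rfl⟩ := nm_unit.mp h2
    exact ⟨v, hu.symm⟩
  rcases hw.dvd_or_dvd hd with h | h
  · exact (quad_unique hqw hqz (hass z hn h)).symm
  · have h1 := hass (star z) (hstar.trans hn) h
    have h2 : Associated (star z) (⟨z.im, z.re⟩ : GaussianInt) := by
      refine ⟨⟨⟨0, 1⟩, ⟨0, -1⟩, by ext <;> simp, by ext <;> simp⟩, ?_⟩
      ext
      · simp [Zsqrtd.re_mul]
      · simp [Zsqrtd.im_mul]
    have hq' : quad (⟨z.im, z.re⟩ : GaussianInt) := by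
      obtain ⟨a, b⟩ := hqz
      constructor
      · simp only; omega
      · simp only; omega
    have h3 := quad_unique hqw hq' (h1.trans h2)
    have e1 : w.re = z.im := by rw [h3]
    have e2 : w.im = z.re := by rw [h3]
    ext <;> omega

lemma card_PR_le (Y : ℕ) : (PR Y).card ≤ Nat.sqrt Y + 2 * Nat.primeCounting Y := by
  have hsplit := Finset.card_filter_add_card_filter_not (s := PR Y) (fun z => z.im = 0)
  rw [← hsplit]
  apply add_le_add
  · have : ((PR Y).filter (fun z => z.im = 0)).card ≤ (Finset.Icc 1 (Nat.sqrt Y)).card := by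
      apply Finset.card_le_card_of_injOn (fun z => z.re.toNat)
      · intro z hz
        simp only [coe_filter, Set.mem_ofPred_eq] at hz
        obtain ⟨hp, hq, hY⟩ := mem_PR.mp hz.1
        have h1 : (nm z : ℤ) ≤ Y := by exact_mod_cast hY
        rw [nm_cast, hz.2] at h1
        have h2 : z.re.toNat ^ 2 ≤ Y := by
          have : ((z.re.toNat : ℕ) : ℤ) = z.re := Int.toNat_of_nonneg hq.1.le
          have h3 : ((z.re.toNat ^ 2 : ℕ) : ℤ) ≤ Y := by push_cast; rw [this]; linarith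
          exact_mod_cast h3
        have h4 : 1 ≤ z.re.toNat := by have := hq.1; omega
        simp only [coe_Icc, Set.mem_Icc]
        exact ⟨h4, Nat.le_sqrt'.mpr h2⟩
      · intro z hz w hw h
        simp only [coe_filter, Set.mem_ofPred_eq] at hz hw h
        have := (mem_PR.mp hz.1).2.1.1
        have := (mem_PR.mp hw.1).2.1.1
        ext
        · omega
        · rw [hz.2, hw.2]
    simpa using this
  · have : ((PR Y).filter (fun z => ¬ z.im = 0)).card ≤
        (((Finset.range (Y + 1)).filter Nat.Prime) ×ˢ (Finset.univ : Finset Bool)).card := by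
      apply Finset.card_le_card_of_injOn (fun z => (nm z, decide (z.re < z.im)))
      · intro z hz
        simp only [coe_filter, Set.mem_ofPred_eq] at hz
        obtain ⟨hp, hq, hY⟩ := mem_PR.mp hz.1
        simp only [coe_product, Set.mem_prod, coe_filter, Set.mem_ofPred_eq, mem_range,
          coe_univ, Set.mem_univ, and_true]
        exact ⟨by omega, prime_nm hp hq hz.2⟩
      · intro z hz w hw h
        simp only [coe_filter, Set.mem_ofPred_eq] at hz hw
        simp only [Prod.mk.injEq, decide_eq_decide] at h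
        obtain ⟨hp, hq, hY⟩ := mem_PR.mp hz.1
        obtain ⟨hp', hq', hY'⟩ := mem_PR.mp hw.1
        exact quad_prime_inj hp hp' hq hq' hz.2 hw.2 h.1 h.2
    rw [card_product] at this
    simp only [card_univ, Fintype.card_bool] at this
    rw [Nat.primeCounting, Nat.primeCounting', Nat.count_eq_card_filter_range, mul_comm]
    exact this

lemma tendsto_card_PR : Tendsto (fun Y : ℕ => ((PR Y).card : ℝ) / Y) atTop (𝓝 0) := by
  have h1 : Tendsto (fun x : ℝ => √x / x + 2 * ((Real.log 4 + 1) / Real.log x)) atTop (𝓝 0) := by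
    have a : Tendsto (fun x : ℝ => √x / x) atTop (𝓝 0) := by
      have : Tendsto (fun x : ℝ => (√x)⁻¹) atTop (𝓝 0) :=
        tendsto_inv_atTop_zero.comp Real.tendsto_sqrt_atTop
      refine this.congr' ?_
      filter_upwards [eventually_gt_atTop 0] with x hx
      rw [← Real.sqrt_div_self]
    have b : Tendsto (fun x : ℝ => (Real.log 4 + 1) / Real.log x) atTop (𝓝 0) :=
      Real.tendsto_log_atTop.const_div_atTop _
    simpa using a.add (b.const_mul 2)
  have h2 := h1.comp (tendsto_natCast_atTop_atTop (R := ℝ))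
  have h3 := tendsto_natCast_atTop_atTop (R := ℝ) |>.eventually
    (Chebyshev.eventually_primeCounting_le (ε := 1) one_pos)
  refine tendsto_of_tendsto_of_tendsto_of_le_of_le' tendsto_const_nhds h2 ?_ ?_
  · exact Eventually.of_forall (fun Y => by positivity)
  · filter_upwards [h3, eventually_ge_atTop 2] with Y hY hY2
    have hYpos : (0 : ℝ) < Y := by positivity
    have hc : ((PR Y).card : ℝ) ≤ Nat.sqrt Y + 2 * Nat.primeCounting Y := by
      exact_mod_cast card_PR_le Y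
    rw [Nat.floor_natCast] at hY
    have hs : (Nat.sqrt Y : ℝ) ≤ √Y := Real.nat_sqrt_le_real_sqrt
    simp only [Function.comp]
    rw [div_le_iff₀ hYpos]
    have e : (√(Y : ℝ) / Y + 2 * ((Real.log 4 + 1) / Real.log Y)) * Y =
        √Y + 2 * ((Real.log 4 + 1) * Y / Real.log Y) := by
      field_simp
    rw [e]
    linarith

lemma tendsto_card_PR' (K : ℕ) (hK : 1 ≤ K) :
    Tendsto (fun N : ℕ => ((PR (K * N ^ 2)).card : ℝ) / (N : ℝ) ^ 2) atTop (𝓝 0) := by
  have h : Tendsto (fun N : ℕ => K * N ^ 2) atTop atTop := by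
    apply tendsto_atTop_mono (f := fun N : ℕ => N) _ tendsto_id
    intro N
    show N ≤ K * N ^ 2
    have h1 : N ≤ N ^ 2 := Nat.le_self_pow two_ne_zero N
    nlinarith
  have h2 := (tendsto_card_PR.comp h).const_mul (K : ℝ)
  rw [mul_zero] at h2
  refine h2.congr' ?_
  filter_upwards [eventually_ge_atTop 1] with N hN
  have hN' : (0 : ℝ) < N := by positivity
  have hK' : (0 : ℝ) < K := by positivity
  simp only [Function.comp]
  push_cast
  field_simp

lemma sum_inv_sqrt (M : ℕ) : ∑ i ∈ range M, 1 / √((i : ℝ) + 1) ≤ 2 * √M := by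
  induction M with
  | zero => simp
  | succ M ih =>
    rw [sum_range_succ]
    have h1 : 1 / √((M : ℝ) + 1) ≤ 2 * √((M : ℝ) + 1) - 2 * √(M : ℝ) := by
      have hM : (0 : ℝ) ≤ M := by positivity
      have ha : √((M : ℝ) + 1) ^ 2 = M + 1 := Real.sq_sqrt (by positivity)
      have hb : √(M : ℝ) ^ 2 = M := Real.sq_sqrt hM
      have ha0 : 0 < √((M : ℝ) + 1) := Real.sqrt_pos.mpr (by positivity)
      have hb0 : 0 ≤ √(M : ℝ) := Real.sqrt_nonneg _
      rw [div_le_iff₀ ha0]
      nlinarith [sq_nonneg (√((M : ℝ) + 1) - √(M : ℝ))]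
    push_cast
    linarith

lemma inv_sqrt_le {x y : ℝ} (hx : 1 ≤ x) (hy : y = 0 ∨ 1 ≤ y) :
    1 / √(x ^ 2 + y ^ 2) ≤ √2 * (1 / √x * (1 / √(y + 1))) := by
  have hy0 : 0 ≤ y := by rcases hy with h | h <;> linarith
  have h1 : x * (y + 1) ≤ 2 * (x ^ 2 + y ^ 2) := by
    rcases hy with h | h
    · subst h; nlinarith
    · nlinarith [sq_nonneg (x - y), sq_nonneg (x - 1)]
  have hpos : 0 < √(x ^ 2 + y ^ 2) := Real.sqrt_pos.mpr (by positivity)
  have hpos2 : 0 < √x * √(y + 1) := mul_pos (Real.sqrt_pos.mpr (by linarith)) (Real.sqrt_pos.mpr (by linarith))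
  have e : √2 * (1 / √x * (1 / √(y + 1))) = √2 / (√x * √(y + 1)) := by field_simp
  rw [e, div_le_div_iff₀ hpos hpos2, one_mul, ← Real.sqrt_mul (by linarith), ← Real.sqrt_mul (by norm_num)]
  exact Real.sqrt_le_sqrt h1

lemma sum_quad_le (P : Finset GaussianInt) (hP : ∀ z ∈ P, quad z) :
    ∑ z ∈ P, 1 / √(nm z : ℝ) ≤ 7 * (√(P.card : ℝ) + 3) := by
  set M : ℕ := ⌈√(P.card : ℝ)⌉₊ + 1 with hM
  have hM1 : √(P.card : ℝ) ≤ M := by
    rw [hM]; push_cast
    linarith [Nat.le_ceil (√(P.card : ℝ))]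
  have hM2 : (M : ℝ) ≤ √(P.card : ℝ) + 2 := by
    rw [hM]; push_cast
    linarith [Nat.ceil_lt_add_one (Real.sqrt_nonneg (P.card : ℝ))]
  have hMpos : (0 : ℝ) < M := by rw [hM]; positivity
  rw [← Finset.sum_filter_add_sum_filter_not P (fun z => nm z ≤ M ^ 2)]
  have hbig : ∑ z ∈ P.filter (fun z => ¬ nm z ≤ M ^ 2), 1 / √(nm z : ℝ) ≤ M := by
    calc ∑ z ∈ P.filter (fun z => ¬ nm z ≤ M ^ 2), 1 / √(nm z : ℝ)
        ≤ ∑ z ∈ P.filter (fun z => ¬ nm z ≤ M ^ 2), 1 / (M : ℝ) := by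
          apply Finset.sum_le_sum
          intro z hz
          rw [Finset.mem_filter] at hz
          have : (M : ℝ) ≤ √(nm z : ℝ) := by
            rw [Real.le_sqrt hMpos.le (by positivity)]
            exact_mod_cast (not_le.mp hz.2).le
          exact one_div_le_one_div_of_le hMpos this
      _ = (P.filter (fun z => ¬ nm z ≤ M ^ 2)).card * (1 / (M : ℝ)) := by
          rw [sum_const, nsmul_eq_mul]
      _ ≤ P.card * (1 / (M : ℝ)) := by
          gcongr
          exact filter_subset _ _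
      _ ≤ M := by
          rw [mul_one_div, div_le_iff₀ hMpos]
          have h1 : √(P.card : ℝ) ^ 2 = P.card := Real.sq_sqrt (by positivity)
          nlinarith [Real.sqrt_nonneg (P.card : ℝ)]
  have hsmall : ∑ z ∈ P.filter (fun z => nm z ≤ M ^ 2), 1 / √(nm z : ℝ) ≤ 6 * (M + 1) := by
    set φ : GaussianInt → ℕ × ℕ := fun z => ((z.re - 1).toNat, z.im.toNat) with hφ
    set g : ℕ × ℕ → ℝ := fun q => √2 * (1 / √((q.1 : ℝ) + 1) * (1 / √((q.2 : ℝ) + 1))) with hg
    have hle : ∀ z ∈ P.filter (fun z => nm z ≤ M ^ 2), 1 / √(nm z : ℝ) ≤ g (φ z) := by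
      intro z hz
      rw [Finset.mem_filter] at hz
      obtain ⟨q1, q2⟩ := hP z hz.1
      have e1 : (((z.re - 1).toNat : ℕ) : ℝ) + 1 = (z.re : ℝ) := by
        have : (((z.re - 1).toNat : ℕ) : ℤ) = z.re - 1 := Int.toNat_of_nonneg (by omega)
        have h2 : (((z.re - 1).toNat : ℕ) : ℝ) = ((z.re - 1 : ℤ) : ℝ) := by exact_mod_cast this
        rw [h2]; push_cast; ring
      have e2 : ((z.im.toNat : ℕ) : ℝ) = (z.im : ℝ) := by
        have : ((z.im.toNat : ℕ) : ℤ) = z.im := Int.toNat_of_nonneg q2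
        exact_mod_cast this
      have e3 : (nm z : ℝ) = (z.re : ℝ) ^ 2 + (z.im : ℝ) ^ 2 := by
        have := nm_cast z
        exact_mod_cast this
      simp only [hg, hφ]
      rw [e1, e2, e3]
      apply inv_sqrt_le
      · exact_mod_cast q1
      · rcases eq_or_lt_of_le q2 with h | h
        · left; exact_mod_cast h.symm
        · right; exact_mod_cast h
    have hinj : Set.InjOn φ (P.filter (fun z => nm z ≤ M ^ 2)) := by
      intro z hz w hw h
      simp only [coe_filter, Set.mem_ofPred_eq] at hz hw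
      obtain ⟨q1, q2⟩ := hP z hz.1
      obtain ⟨r1, r2⟩ := hP w hw.1
      simp only [hφ, Prod.mk.injEq] at h
      ext <;> omega
    have hsub : (P.filter (fun z => nm z ≤ M ^ 2)).image φ ⊆ range (M + 1) ×ˢ range (M + 1) := by
      intro q hq
      rw [Finset.mem_image] at hq
      obtain ⟨z, hz, rfl⟩ := hq
      rw [Finset.mem_filter] at hz
      obtain ⟨q1, q2⟩ := hP z hz.1
      have h1 : (nm z : ℤ) ≤ (M : ℤ) ^ 2 := by exact_mod_cast hz.2
      rw [nm_cast] at h1
      have h2 : z.re ≤ M := by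
        by_contra hcon
        push Not at hcon
        nlinarith [sq_nonneg z.im]
      have h3 : z.im ≤ M := by
        by_contra hcon
        push Not at hcon
        nlinarith [sq_nonneg z.re]
      simp only [hφ, mem_product, mem_range]
      constructor <;> omega
    calc ∑ z ∈ P.filter (fun z => nm z ≤ M ^ 2), 1 / √(nm z : ℝ)
        ≤ ∑ z ∈ P.filter (fun z => nm z ≤ M ^ 2), g (φ z) := Finset.sum_le_sum hle
      _ = ∑ q ∈ (P.filter (fun z => nm z ≤ M ^ 2)).image φ, g q := by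
          rw [Finset.sum_image hinj]
      _ ≤ ∑ q ∈ range (M + 1) ×ˢ range (M + 1), g q := by
          apply Finset.sum_le_sum_of_subset_of_nonneg hsub
          intro q _ _
          simp only [hg]; positivity
      _ = √2 * ((∑ i ∈ range (M + 1), 1 / √((i : ℝ) + 1)) * (∑ i ∈ range (M + 1), 1 / √((i : ℝ) + 1))) := by
          rw [Finset.sum_mul_sum, Finset.mul_sum, Finset.sum_product]
          apply Finset.sum_congr rfl
          intro i _
          rw [Finset.mul_sum]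
      _ ≤ √2 * ((2 * √((M + 1 : ℕ) : ℝ)) * (2 * √((M + 1 : ℕ) : ℝ))) := by
          have := sum_inv_sqrt (M + 1)
          gcongr
      _ ≤ 6 * (M + 1) := by
          have h1 : √((M + 1 : ℕ) : ℝ) * √((M + 1 : ℕ) : ℝ) = M + 1 := by
            rw [Real.mul_self_sqrt (by positivity)]; push_cast; ring
          have h2 : √2 ≤ 1.5 := by
            rw [Real.sqrt_le_left (by norm_num)]; norm_num
          nlinarith [Real.sqrt_nonneg 2]
  linarith

/-- the centre of the shifted square -/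
def shift (ε : ℝ) (N : ℕ) : GaussianInt := ⟨⌊(N : ℝ) ^ (1 + ε)⌋, 0⟩

/-- the shifted square `Φ_N` -/
def Phi (ε : ℝ) (N : ℕ) : Finset GaussianInt := sq (shift ε N) N

lemma mem_Phi_bounds {ε : ℝ} {N : ℕ} {z : GaussianInt} (hz : z ∈ Phi ε N) :
    (N : ℝ) ^ (1 + ε) - N < z.re ∧ (z.re : ℝ) < (N : ℝ) ^ (1 + ε) + N ∧
      (z.im : ℝ) ^ 2 ≤ (N : ℝ) ^ 2 := by
  unfold Phi at hz
  rw [mem_sq] at hz
  simp only [shift] at hz
  obtain ⟨⟨h1, h2⟩, h3, h4⟩ := hz
  refine ⟨?_, ?_, ?_⟩
  · have h5 : ⌊(N : ℝ) ^ (1 + ε)⌋ + 1 ≤ z.re + N := by omega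
    have h6 : ((⌊(N : ℝ) ^ (1 + ε)⌋ : ℤ) : ℝ) + 1 ≤ (z.re : ℝ) + N := by exact_mod_cast h5
    linarith [Int.lt_floor_add_one ((N : ℝ) ^ (1 + ε))]
  · have h6 : (z.re : ℝ) < ((⌊(N : ℝ) ^ (1 + ε)⌋ : ℤ) : ℝ) + N := by exact_mod_cast h2
    linarith [Int.floor_le ((N : ℝ) ^ (1 + ε))]
  · have h5 : (-(N : ℝ)) ≤ z.im := by
      have : (-(N : ℤ)) ≤ z.im := by omega
      exact_mod_cast this
    have h6 : (z.im : ℝ) ≤ N := by
      have : z.im ≤ (N : ℤ) := by omega
      exact_mod_cast this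
    nlinarith

lemma le_rpow {ε : ℝ} (hε : 0 < ε) {N : ℕ} (hN : 1 ≤ N) : (N : ℝ) ≤ (N : ℝ) ^ (1 + ε) := by
  have h1 : (1 : ℝ) ≤ N := by exact_mod_cast hN
  calc (N : ℝ) = (N : ℝ) ^ (1 : ℝ) := (Real.rpow_one _).symm
    _ ≤ (N : ℝ) ^ (1 + ε) := Real.rpow_le_rpow_of_exponent_le h1 (by linarith)

lemma nm_cast_real (z : GaussianInt) : (nm z : ℝ) = (z.re : ℝ) ^ 2 + (z.im : ℝ) ^ 2 := by
  have := nm_cast z
  exact_mod_cast this

lemma Phi_ne_zero {ε : ℝ} (hε : 0 < ε) {N : ℕ} {z : GaussianInt} (hz : z ∈ Phi ε N) : z ≠ 0 := by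
  rcases Nat.eq_zero_or_pos N with h | h
  · exfalso
    unfold Phi at hz
    rw [mem_sq] at hz
    omega
  · rintro rfl
    have := (mem_Phi_bounds hz).1
    have h2 := le_rpow hε h
    simp at this
    linarith

lemma nm_Phi_le {ε : ℝ} (hε : 0 < ε) {N : ℕ} (hN : 1 ≤ N) {z : GaussianInt} (hz : z ∈ Phi ε N) :
    (nm z : ℝ) ≤ 5 * ((N : ℝ) ^ (1 + ε)) ^ 2 := by
  obtain ⟨h1, h2, h3⟩ := mem_Phi_bounds hz
  have h4 := le_rpow hε hN
  rw [nm_cast_real]
  have hN0 : (0 : ℝ) ≤ N := by positivity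
  nlinarith

lemma card_Phi (ε : ℝ) (N : ℕ) : (Phi ε N).card = (2 * N - 1) ^ 2 := card_sq _ _

/-- elements of `Φ_N` without a large prime factor -/
def small (ε : ℝ) (K N : ℕ) : Finset GaussianInt :=
  (Phi ε N).filter (fun z => ¬ ∃ q, Prime q ∧ q ∣ z ∧ K * N ^ 2 < nm q)

lemma S_nonneg (P : Finset GaussianInt) (A : ℕ) (z : GaussianInt) : 0 ≤ S P A z := by
  unfold S
  apply Finset.sum_nonneg
  intro p _
  apply Finset.sum_nonneg
  intro a _
  split_ifs
  · exact Real.log_natCast_nonneg _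
  · exact le_refl _

lemma sum_S (P : Finset GaussianInt) (A : ℕ) (E : Finset GaussianInt) :
    ∑ z ∈ E, S P A z = ∑ p ∈ P, ∑ a ∈ Finset.Icc 1 A,
      Real.log (nm p) * ((E.filter (fun z => p ^ a ∣ z)).card : ℝ) := by
  unfold S
  rw [Finset.sum_comm]
  apply Finset.sum_congr rfl
  intro p _
  rw [Finset.sum_comm]
  apply Finset.sum_congr rfl
  intro a _
  rw [← Finset.sum_filter, Finset.sum_const, nsmul_eq_mul, mul_comm]

lemma geom_le {r : ℝ} (h0 : 0 ≤ r) (h1 : r ≤ 0.71) (A : ℕ) :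
    ∑ a ∈ Finset.Icc 1 A, r ^ a ≤ 4 * r := by
  have h : ∑ a ∈ Finset.Icc 1 A, r ^ a ≤ 4 * r - 3.5 * r ^ (A + 1) := by
    induction A with
    | zero => simp; linarith
    | succ A ih =>
      rw [Finset.sum_Icc_succ_top (by omega)]
      have h2 : r ^ (A + 1 + 1) = r ^ (A + 1) * r := pow_succ _ _
      have h3 : 0 ≤ r ^ (A + 1) := by positivity
      rw [h2]
      nlinarith
  have : 0 ≤ r ^ (A + 1) := by positivity
  linarith

lemma main_ineq {ε : ℝ} (hε : 0 < ε) {K N : ℕ} (hK : 1 ≤ K) (hN : 2 ≤ N)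
    (hpos : 1 ≤ (N : ℝ) ^ (1 + ε) - N) :
    ((small ε K N).card : ℝ) * (2 * Real.log ((N : ℝ) ^ (1 + ε) - N)) ≤
      4 * (N : ℝ) ^ 2 * Real.log (2 * (N : ℝ) ^ 2) +
      37 * (PR (K * N ^ 2)).card * Real.log (5 * ((N : ℝ) ^ (1 + ε)) ^ 2) +
      1288 * N * Real.log (K * (N : ℝ) ^ 2) * (√((PR (K * N ^ 2)).card : ℝ) + 3) := by
  set x : ℝ := (N : ℝ) ^ (1 + ε) with hx
  set Y : ℕ := K * N ^ 2 with hY
  set P := PR Y with hP
  set V : ℝ := 5 * x ^ 2 with hV
  have hN1 : 1 ≤ N := by omega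
  have hxN : (N : ℝ) ≤ x := le_rpow hε hN1
  have hN2 : (2 : ℝ) ≤ N := by exact_mod_cast hN
  have hV1 : 1 ≤ V := by rw [hV]; nlinarith
  set A : ℕ := ⌊V⌋₊ with hA
  have hAV : V < 2 ^ (A + 1) := by
    have h1 : V < A + 1 := Nat.lt_floor_add_one V
    have h2 : (A + 1 : ℕ) < 2 ^ (A + 1) := Nat.lt_two_pow_self
    have h3 : ((A + 1 : ℕ) : ℝ) < 2 ^ (A + 1) := by exact_mod_cast h2
    push_cast at h3
    linarith
  have hPp : ∀ p ∈ P, Prime p := PR_prime
  have hPna := PR_na (Y := Y)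
  -- lower bound
  have hL : ((small ε K N).card : ℝ) * (2 * Real.log (x - N)) ≤ ∑ z ∈ small ε K N, Real.log (nm z) := by
    rw [← nsmul_eq_mul, ← Finset.sum_const]
    apply Finset.sum_le_sum
    intro z hz
    have hz' := (Finset.mem_filter.mp hz).1
    obtain ⟨h1, h2, h3⟩ := mem_Phi_bounds hz'
    rw [← hx] at h1 h2
    have : 2 * Real.log (x - N) = Real.log ((x - N) ^ 2) := by rw [Real.log_pow]; norm_num
    rw [this]
    apply Real.log_le_log (by positivity)
    rw [nm_cast_real]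
    nlinarith [sq_nonneg (z.im : ℝ)]
  have hU1 : ∑ z ∈ small ε K N, Real.log (nm z) ≤ ∑ z ∈ Phi ε N, S P A z := by
    calc ∑ z ∈ small ε K N, Real.log (nm z) ≤ ∑ z ∈ small ε K N, S P A z := by
          apply Finset.sum_le_sum
          intro z hz
          unfold small at hz
          rw [Finset.mem_filter] at hz
          have hz0 := Phi_ne_zero hε hz.1
          apply le_S hPp hPna hz0
          · intro q hq hqz
            apply PR_exists hq
            by_contra hcon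
            exact hz.2 ⟨q, hq, hqz, not_le.mp hcon⟩
          · have h1 := nm_Phi_le hε hN1 hz.1
            have h2 : (nm z : ℝ) < 2 ^ (A + 1) := lt_of_le_of_lt h1 hAV
            exact_mod_cast h2
      _ ≤ ∑ z ∈ Phi ε N, S P A z :=
          Finset.sum_le_sum_of_subset_of_nonneg (filter_subset _ _) (fun z _ _ => S_nonneg _ _ _)
  rw [sum_S] at hU1
  -- termwise bound
  have hterm : ∀ p ∈ P, ∀ a ∈ Finset.Icc 1 A,
      Real.log (nm p) * (((Phi ε N).filter (fun z => p ^ a ∣ z)).card : ℝ) ≤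
      Real.log (nm p) * ((((sq 0 N).erase 0).filter (fun z => p ^ a ∣ z)).card : ℝ) +
      (if (nm p : ℝ) ^ a ≤ V then 37 * Real.log (nm p) else 0) +
      46 * N * Real.log Y * (1 / √(nm p : ℝ)) ^ a := by
    intro p hp a ha
    have hlog0 : 0 ≤ Real.log (nm p : ℝ) := Real.log_natCast_nonneg _
    have hlogY : 0 ≤ Real.log (Y : ℝ) := Real.log_natCast_nonneg _
    have hpY : Real.log (nm p : ℝ) ≤ Real.log (Y : ℝ) := by
      apply Real.log_le_log
      · have := two_le_nm (hPp p hp); positivity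
      · exact_mod_cast (mem_PR.mp hp).2.2
    split_ifs with hcase
    · have hne : p ^ a ≠ 0 := pow_ne_zero _ (hPp p hp).ne_zero
      have h1 := count_compare (shift ε N) N hne
      have e1 : (nm (p ^ a) : ℝ) = (nm p : ℝ) ^ a := by rw [nm_pow]; push_cast; ring
      have e2 : √(nm (p ^ a) : ℝ) = (√(nm p : ℝ)) ^ a := by
        rw [e1, Real.sqrt_eq_rpow, Real.sqrt_eq_rpow, ← Real.rpow_natCast, ← Real.rpow_natCast,
          ← Real.rpow_mul (by positivity), ← Real.rpow_mul (by positivity), mul_comm]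
      rw [e2] at h1
      have h2 : 46 * (N : ℝ) / √(nm p : ℝ) ^ a = 46 * N * (1 / √(nm p : ℝ)) ^ a := by
        rw [div_pow, one_pow]; ring
      rw [h2] at h1
      have h3 := mul_le_mul_of_nonneg_left h1 hlog0
      have h4 : 0 ≤ 46 * (N : ℝ) * (1 / √(nm p : ℝ)) ^ a := by positivity
      have h5 := mul_le_mul_of_nonneg_right hpY h4
      unfold Phi
      nlinarith
    · have hz : ((Phi ε N).filter (fun z => p ^ a ∣ z)) = ∅ := by
        rw [Finset.filter_eq_empty_iff]
        intro z hz hd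
        apply hcase
        have h1 := nm_le_of_dvd hd (Phi_ne_zero hε hz)
        rw [nm_pow] at h1
        have h2 : ((nm p : ℝ)) ^ a ≤ nm z := by exact_mod_cast h1
        exact h2.trans (nm_Phi_le hε hN1 hz)
      rw [hz]
      simp only [card_empty, Nat.cast_zero, mul_zero, add_zero]
      positivity
  have hU2 := Finset.sum_le_sum (fun p hp => Finset.sum_le_sum (hterm p hp))
  simp only [Finset.sum_add_distrib] at hU2
  -- Sum 1
  have hs1 : ∑ p ∈ P, ∑ a ∈ Finset.Icc 1 A,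
      Real.log (nm p) * ((((sq 0 N).erase 0).filter (fun z => p ^ a ∣ z)).card : ℝ) ≤
      4 * (N : ℝ) ^ 2 * Real.log (2 * (N : ℝ) ^ 2) := by
    rw [← sum_S]
    calc ∑ z ∈ (sq 0 N).erase 0, S P A z ≤ ∑ z ∈ (sq 0 N).erase 0, Real.log (2 * (N : ℝ) ^ 2) := by
          apply Finset.sum_le_sum
          intro z hz
          rw [Finset.mem_erase] at hz
          refine (S_le hPp hPna A hz.1).trans ?_
          apply Real.log_le_log
          · exact_mod_cast nm_pos hz.1
          · have h := mem_sq.mp hz.2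
            simp only [Zsqrtd.re_zero, Zsqrtd.im_zero] at h
            have h1 : (nm z : ℤ) ≤ 2 * (N : ℤ) ^ 2 := by
              rw [nm_cast]
              obtain ⟨⟨a1, a2⟩, a3, a4⟩ := h
              have : z.re ^ 2 ≤ (N : ℤ) ^ 2 := sq_le_sq' (by linarith) (by linarith)
              have : z.im ^ 2 ≤ (N : ℤ) ^ 2 := sq_le_sq' (by linarith) (by linarith)
              linarith
            exact_mod_cast h1
      _ = ((sq 0 N).erase 0).card * Real.log (2 * (N : ℝ) ^ 2) := by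
          rw [sum_const, nsmul_eq_mul]
      _ ≤ 4 * (N : ℝ) ^ 2 * Real.log (2 * (N : ℝ) ^ 2) := by
          have h1 : ((sq 0 N).erase 0).card ≤ 4 * N ^ 2 := by
            refine (card_le_card (erase_subset _ _)).trans ?_
            rw [card_sq]
            calc (2 * N - 1) ^ 2 ≤ (2 * N) ^ 2 := Nat.pow_le_pow_left (by omega) 2
              _ = 4 * N ^ 2 := by ring
          have h2 : (((sq 0 N).erase 0).card : ℝ) ≤ 4 * (N : ℝ) ^ 2 := by exact_mod_cast h1
          apply mul_le_mul_of_nonneg_right h2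
          apply Real.log_nonneg
          nlinarith
  -- Sum 2
  have hs2 : ∑ p ∈ P, ∑ a ∈ Finset.Icc 1 A,
      (if (nm p : ℝ) ^ a ≤ V then 37 * Real.log (nm p) else 0) ≤
      37 * (P.card : ℝ) * Real.log V := by
    calc ∑ p ∈ P, ∑ a ∈ Finset.Icc 1 A,
        (if (nm p : ℝ) ^ a ≤ V then 37 * Real.log (nm p) else 0) ≤ ∑ p ∈ P, 37 * Real.log V := by
          apply Finset.sum_le_sum
          intro p hp
          have hp2 := two_le_nm (hPp p hp)
          have hp2' : (2 : ℝ) ≤ nm p := by exact_mod_cast hp2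
          have hlog : 0 < Real.log (nm p : ℝ) := Real.log_pos (by linarith)
          rw [← Finset.sum_filter, Finset.sum_const, nsmul_eq_mul]
          have hsub : (Finset.Icc 1 A).filter (fun a => (nm p : ℝ) ^ a ≤ V) ⊆
              Finset.Icc 1 ⌊Real.log V / Real.log (nm p : ℝ)⌋₊ := by
            intro a ha
            rw [Finset.mem_filter, Finset.mem_Icc] at ha
            rw [Finset.mem_Icc]
            refine ⟨ha.1.1, Nat.le_floor ?_⟩
            rw [le_div_iff₀ hlog]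
            have := Real.log_le_log (by positivity) ha.2
            rwa [Real.log_pow] at this
          have hc := card_le_card hsub
          rw [Nat.card_Icc, Nat.add_sub_cancel] at hc
          have hV0 : 0 ≤ Real.log V / Real.log (nm p : ℝ) :=
            div_nonneg (Real.log_nonneg hV1) hlog.le
          have hc' : (((Finset.Icc 1 A).filter (fun a => (nm p : ℝ) ^ a ≤ V)).card : ℝ) ≤
              Real.log V / Real.log (nm p : ℝ) :=
            le_trans (by exact_mod_cast hc) (Nat.floor_le hV0)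
          have := mul_le_mul_of_nonneg_right hc' (show 0 ≤ 37 * Real.log (nm p : ℝ) by positivity)
          refine this.trans (le_of_eq ?_)
          field_simp
      _ = 37 * (P.card : ℝ) * Real.log V := by
          rw [sum_const, nsmul_eq_mul]; ring
  -- Sum 3
  have hs3 : ∑ p ∈ P, ∑ a ∈ Finset.Icc 1 A, 46 * (N : ℝ) * Real.log Y * (1 / √(nm p : ℝ)) ^ a ≤
      1288 * N * Real.log (K * (N : ℝ) ^ 2) * (√(P.card : ℝ) + 3) := by
    have hlogY : 0 ≤ Real.log (Y : ℝ) := Real.log_natCast_nonneg _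
    have eY : (Y : ℝ) = K * (N : ℝ) ^ 2 := by rw [hY]; push_cast; ring
    calc ∑ p ∈ P, ∑ a ∈ Finset.Icc 1 A, 46 * (N : ℝ) * Real.log Y * (1 / √(nm p : ℝ)) ^ a
        = 46 * (N : ℝ) * Real.log Y * ∑ p ∈ P, ∑ a ∈ Finset.Icc 1 A, (1 / √(nm p : ℝ)) ^ a := by
          rw [Finset.mul_sum]
          apply Finset.sum_congr rfl
          intro p _
          rw [Finset.mul_sum]
      _ ≤ 46 * (N : ℝ) * Real.log Y * ∑ p ∈ P, 4 * (1 / √(nm p : ℝ)) := by
          apply mul_le_mul_of_nonneg_left _ (by positivity)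
          apply Finset.sum_le_sum
          intro p hp
          apply geom_le (by positivity)
          have hp2' : (2 : ℝ) ≤ nm p := by exact_mod_cast two_le_nm (hPp p hp)
          have h2 : 1.41 ≤ √(nm p : ℝ) := by
            rw [Real.le_sqrt (by norm_num) (by positivity)]
            norm_num; linarith
          rw [div_le_iff₀ (by linarith)]
          nlinarith
      _ = 184 * (N : ℝ) * Real.log Y * ∑ p ∈ P, 1 / √(nm p : ℝ) := by
          rw [← Finset.mul_sum]; ring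
      _ ≤ 184 * (N : ℝ) * Real.log Y * (7 * (√(P.card : ℝ) + 3)) := by
          apply mul_le_mul_of_nonneg_left _ (by positivity)
          exact sum_quad_le P (fun z hz => (mem_PR.mp hz).2.1)
      _ = 1288 * N * Real.log (K * (N : ℝ) ^ 2) * (√(P.card : ℝ) + 3) := by
          rw [eY]; ring
  linarith

lemma small_density {ε : ℝ} (hε : 0 < ε) {K : ℕ} (hK : 1 ≤ K) :
    ∀ᶠ N : ℕ in atTop, ((small ε K N).card : ℝ) ≤
      (1 - ε / (2 * (1 + ε))) * ((Phi ε N).card : ℝ) := by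
  set u : ℕ → ℝ := fun N => ((PR (K * N ^ 2)).card : ℝ) / (N : ℝ) ^ 2 with hu
  set t : ℕ → ℝ := fun N => 1 / Real.log N with ht
  have hu0 : Tendsto u atTop (𝓝 0) := tendsto_card_PR' K hK
  have hlog : Tendsto (fun N : ℕ => Real.log (N : ℝ)) atTop atTop :=
    Real.tendsto_log_atTop.comp tendsto_natCast_atTop_atTop
  have ht0 : Tendsto t atTop (𝓝 0) := by
    refine (tendsto_inv_atTop_zero.comp hlog).congr (fun N => ?_)
    simp [ht, Function.comp]
  have hn0 : Tendsto (fun N : ℕ => 1 / (N : ℝ)) atTop (𝓝 0) := tendsto_one_div_atTop_nhds_zero_nat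
  set R : ℕ → ℝ := fun N => (4 * (Real.log 2 * t N + 2) + 37 * u N * (Real.log 5 * t N + (2 + 2 * ε))
    + 1288 * (Real.log K * t N + 2) * (√(u N) + 3 * (1 / (N : ℝ)))) /
    (2 * ((1 + ε) - Real.log 2 * t N)) with hR
  have hRlim : Tendsto R atTop (𝓝 (4 / (1 + ε))) := by
    have hsu : Tendsto (fun N => √(u N)) atTop (𝓝 0) := by
      have := hu0.sqrt
      simpa using this
    have h1 : Tendsto (fun N => 4 * (Real.log 2 * t N + 2)) atTop (𝓝 (4 * (Real.log 2 * 0 + 2))) :=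
      ((ht0.const_mul _).add_const _).const_mul _
    have h2 : Tendsto (fun N => 37 * u N * (Real.log 5 * t N + (2 + 2 * ε))) atTop
        (𝓝 (37 * 0 * (Real.log 5 * 0 + (2 + 2 * ε)))) :=
      (hu0.const_mul _).mul ((ht0.const_mul _).add_const _)
    have h3 : Tendsto (fun N => 1288 * (Real.log K * t N + 2) * (√(u N) + 3 * (1 / (N : ℝ)))) atTop
        (𝓝 (1288 * (Real.log K * 0 + 2) * (0 + 3 * 0))) :=
      (((ht0.const_mul _).add_const _).const_mul _).mul (hsu.add (hn0.const_mul _))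
    have h4 : Tendsto (fun N => 2 * ((1 + ε) - Real.log 2 * t N)) atTop
        (𝓝 (2 * ((1 + ε) - Real.log 2 * 0))) :=
      ((ht0.const_mul _).const_sub _).const_mul _
    have h5 := ((h1.add h2).add h3).div h4 (by simp; linarith)
    have e : (4 * (Real.log 2 * 0 + 2) + 37 * 0 * (Real.log 5 * 0 + (2 + 2 * ε)) +
        1288 * (Real.log K * 0 + 2) * (0 + 3 * 0)) / (2 * ((1 + ε) - Real.log 2 * 0)) =
        4 / (1 + ε) := by
      have h1e : (1 + ε) ≠ 0 := by positivity
      rw [div_eq_div_iff (by simp; positivity) h1e]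
      ring
    rw [e] at h5
    exact h5
  have hQlim : Tendsto (fun N : ℕ => (1 - ε / (2 * (1 + ε))) * (2 - 1 / (N : ℝ)) ^ 2) atTop
      (𝓝 ((1 - ε / (2 * (1 + ε))) * (2 - 0) ^ 2)) :=
    ((hn0.const_sub _).pow 2).const_mul _
  have hlt : 4 / (1 + ε) < (1 - ε / (2 * (1 + ε))) * (2 - 0) ^ 2 := by
    have : (1 - ε / (2 * (1 + ε))) * (2 - 0) ^ 2 = (4 + 2 * ε) / (1 + ε) := by
      field_simp; ring
    rw [this]
    apply div_lt_div_of_pos_right _ (by linarith)
    linarith
  have hev := hRlim.eventually_lt hQlim hlt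
  have hpow : Tendsto (fun N : ℕ => (N : ℝ) ^ ε) atTop atTop :=
    (tendsto_rpow_atTop hε).comp tendsto_natCast_atTop_atTop
  have htden : ∀ᶠ N : ℕ in atTop, Real.log 2 * t N < 1 := by
    have := ht0.const_mul (Real.log 2)
    rw [mul_zero] at this
    exact this.eventually_lt_const one_pos
  filter_upwards [hev, hpow.eventually_ge_atTop 2, eventually_ge_atTop 3, htden] with N h1 h2 h3 h4
  have hN2 : (3 : ℝ) ≤ N := by exact_mod_cast h3
  have hNpos : (0 : ℝ) < N := by linarith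
  have hlogN : 0 < Real.log (N : ℝ) := Real.log_pos (by linarith)
  set x : ℝ := (N : ℝ) ^ (1 + ε) with hx
  have hxe : x = N * (N : ℝ) ^ ε := by
    rw [hx, Real.rpow_add hNpos, Real.rpow_one]
  have hx2 : x / 2 ≤ x - N := by
    rw [hxe]; nlinarith
  have hxpos : 0 < x := by rw [hxe]; positivity
  have hx1 : 1 ≤ x - N := by
    rw [hxe]; nlinarith
  have hmain := main_ineq hε hK (by omega : 2 ≤ N) hx1
  rw [← hx] at hmain
  have hlogx : Real.log x = (1 + ε) * Real.log N := by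
    rw [hx, Real.log_rpow hNpos]
  have hl1 : (1 + ε) * Real.log N - Real.log 2 ≤ Real.log (x - N) := by
    rw [← hlogx, ← Real.log_div hxpos.ne' (by norm_num)]
    exact Real.log_le_log (by positivity) hx2
  have hl2 : Real.log (2 * (N : ℝ) ^ 2) = Real.log 2 + 2 * Real.log N := by
    rw [Real.log_mul (by norm_num) (by positivity), Real.log_pow]; norm_num
  have hl3 : Real.log (5 * x ^ 2) = Real.log 5 + (2 + 2 * ε) * Real.log N := by
    rw [Real.log_mul (by norm_num) (by positivity), Real.log_pow, hlogx]; push_cast; ring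
  have hKpos : (0 : ℝ) < K := by exact_mod_cast hK
  have hl4 : Real.log (K * (N : ℝ) ^ 2) = Real.log K + 2 * Real.log N := by
    rw [Real.log_mul (by positivity) (by positivity), Real.log_pow]; norm_num
  rw [hl2, hl3, hl4] at hmain
  set c : ℝ := ((PR (K * N ^ 2)).card : ℝ) with hc
  have hcu : c = u N * (N : ℝ) ^ 2 := by
    have h0 : (N : ℝ) ^ 2 ≠ 0 := by positivity
    exact (div_mul_cancel₀ c h0).symm
  have hu0' : 0 ≤ u N := div_nonneg (Nat.cast_nonneg _) (by positivity)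
  have hsc : √c = √(u N) * N := by
    rw [hcu, Real.sqrt_mul hu0', Real.sqrt_sq hNpos.le]
  have htN : t N * Real.log N = 1 := one_div_mul_cancel hlogN.ne'
  set m : ℝ := ((small ε K N).card : ℝ) with hm
  have hm0 : 0 ≤ m := Nat.cast_nonneg _
  -- m ≤ R N * N^2
  have hden : 0 < 2 * ((1 + ε) - Real.log 2 * t N) := by nlinarith
  have hmR : m ≤ R N * (N : ℝ) ^ 2 := by
    have e1 : m * (2 * ((1 + ε) - Real.log 2 * t N)) * Real.log N ≤
        (4 * (Real.log 2 * t N + 2) + 37 * u N * (Real.log 5 * t N + (2 + 2 * ε))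
        + 1288 * (Real.log K * t N + 2) * (√(u N) + 3 * (1 / (N : ℝ)))) * (N : ℝ) ^ 2 *
        Real.log N := by
      have a1 : m * (2 * ((1 + ε) - Real.log 2 * t N)) * Real.log N =
          m * (2 * ((1 + ε) * Real.log N - Real.log 2)) := by
        linear_combination (-2 * m * Real.log 2) * htN
      have a2 : m * (2 * ((1 + ε) * Real.log N - Real.log 2)) ≤ m * (2 * Real.log (x - N)) :=
        mul_le_mul_of_nonneg_left (mul_le_mul_of_nonneg_left hl1 (by norm_num)) hm0
      have a3 : (4 * (Real.log 2 * t N + 2) + 37 * u N * (Real.log 5 * t N + (2 + 2 * ε))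
        + 1288 * (Real.log K * t N + 2) * (√(u N) + 3 * (1 / (N : ℝ)))) * (N : ℝ) ^ 2 *
        Real.log N = 4 * (N : ℝ) ^ 2 * (Real.log 2 + 2 * Real.log N) +
          37 * c * (Real.log 5 + (2 + 2 * ε) * Real.log N) +
          1288 * N * (Real.log K + 2 * Real.log N) * (√c + 3) := by
        rw [hsc, hcu]
        have hN2' : (1 / (N : ℝ)) * (N : ℝ) ^ 2 = N := by
          rw [pow_two, ← mul_assoc, one_div_mul_cancel hNpos.ne', one_mul]
        linear_combination (4 * (N : ℝ) ^ 2 * Real.log 2 + 37 * u N * (N : ℝ) ^ 2 * Real.log 5 +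
          1288 * (N : ℝ) ^ 2 * Real.log K * √(u N) + 1288 * 3 * (1 / (N : ℝ)) * (N : ℝ) ^ 2 * Real.log K) * htN +
          (1288 * 3 * (Real.log K + 2 * Real.log N)) * hN2'
      rw [a1, a3]
      exact a2.trans hmain
    have e2 := le_of_mul_le_mul_right e1 hlogN
    rw [hR]
    simp only
    rw [div_mul_eq_mul_div, le_div_iff₀ hden]
    exact e2
  have hcard : ((Phi ε N).card : ℝ) = (2 - 1 / (N : ℝ)) ^ 2 * (N : ℝ) ^ 2 := by
    rw [card_Phi, Nat.cast_pow, Nat.cast_sub (by omega), ← mul_pow]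
    push_cast
    rw [sub_mul, one_div_mul_cancel hNpos.ne']
  rw [hcard]
  calc m ≤ R N * (N : ℝ) ^ 2 := hmR
    _ ≤ ((1 - ε / (2 * (1 + ε))) * (2 - 1 / (N : ℝ)) ^ 2) * (N : ℝ) ^ 2 := by gcongr
    _ = _ := by ring

/-- a chosen prime factor of norm larger than `Y` -/
def bigP (Y : ℕ) (z : GaussianInt) : GaussianInt :=
  if h : ∃ q, Prime q ∧ q ∣ z ∧ Y < nm q then h.choose else 0

lemma bigP_spec {Y : ℕ} {z : GaussianInt} (h : ∃ q, Prime q ∧ q ∣ z ∧ Y < nm q) :
    Prime (bigP Y z) ∧ bigP Y z ∣ z ∧ Y < nm (bigP Y z) := by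
  unfold bigP
  rw [dif_pos h]
  exact h.choose_spec

/-- the primes killed at scale `N` -/
def BB (ε : ℝ) (K N : ℕ) : Finset GaussianInt :=
  ((Phi ε N).filter (fun z => ∃ q, Prime q ∧ q ∣ z ∧ K * N ^ 2 < nm q)).image (bigP (K * N ^ 2))

lemma mem_BB {ε : ℝ} {K N : ℕ} {q : GaussianInt} (hq : q ∈ BB ε K N) :
    Prime q ∧ K * N ^ 2 < nm q := by
  unfold BB at hq
  rw [Finset.mem_image] at hq
  obtain ⟨z, hz, rfl⟩ := hq
  rw [Finset.mem_filter] at hz
  have := bigP_spec hz.2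
  exact ⟨this.1, this.2.2⟩

lemma card_BB_le (ε : ℝ) (K N : ℕ) : ((BB ε K N).card : ℝ) ≤ 4 * (N : ℝ) ^ 2 := by
  have h1 : (BB ε K N).card ≤ 4 * N ^ 2 := by
    refine card_image_le.trans ((card_filter_le _ _).trans ?_)
    rw [card_Phi]
    calc (2 * N - 1) ^ 2 ≤ (2 * N) ^ 2 := Nat.pow_le_pow_left (by omega) 2
      _ = 4 * N ^ 2 := by ring
  exact_mod_cast h1

/-- the constants `K_k` -/
def KK (δ : ℝ) (k : ℕ) : ℕ := ⌈512 * 2 ^ k / δ⌉₊ + 1

lemma KK_pos (δ : ℝ) (k : ℕ) : 1 ≤ KK δ k := by unfold KK; omega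

lemma inv_KK {δ : ℝ} (hδ : 0 < δ) (k : ℕ) : 64 / (KK δ k : ℝ) ≤ (δ / 8) * (1 / 2) ^ k := by
  have h1 : 512 * 2 ^ k / δ ≤ (KK δ k : ℝ) := by
    unfold KK; push_cast
    linarith [Nat.le_ceil (512 * 2 ^ k / δ : ℝ)]
  have h0 : 0 < 512 * 2 ^ k / δ := by positivity
  calc 64 / (KK δ k : ℝ) ≤ 64 / (512 * 2 ^ k / δ) := by gcongr
    _ = (δ / 8) * (1 / 2) ^ k := by
      rw [one_div, inv_pow]
      field_simp
      norm_num

/-- the indicator of the Gaussian integers free of the primes in `B` -/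
def ff (B : Set GaussianInt) (z : GaussianInt) : ℝ := if ∃ q ∈ B, q ∣ z then 0 else 1

lemma ff_mul {B : Set GaussianInt} (hB : ∀ q ∈ B, Prime q) (m n : GaussianInt) :
    ff B (m * n) = ff B m * ff B n := by
  unfold ff
  by_cases hm : ∃ q ∈ B, q ∣ m
  · rw [if_pos hm, zero_mul, if_pos]
    obtain ⟨q, hq, hd⟩ := hm
    exact ⟨q, hq, hd.mul_right n⟩
  · by_cases hn : ∃ q ∈ B, q ∣ n
    · rw [if_pos hn, mul_zero, if_pos]
      obtain ⟨q, hq, hd⟩ := hn
      exact ⟨q, hq, hd.mul_left m⟩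
    · rw [if_neg hm, if_neg hn, if_neg]
      · norm_num
      · rintro ⟨q, hq, hd⟩
        rcases (hB q hq).dvd_or_dvd hd with h | h
        · exact hm ⟨q, hq, h⟩
        · exact hn ⟨q, hq, h⟩

lemma ff_nonneg (B : Set GaussianInt) (z : GaussianInt) : 0 ≤ ff B z := by
  unfold ff; split_ifs <;> norm_num

lemma ff_le_one (B : Set GaussianInt) (z : GaussianInt) : ff B z ≤ 1 := by
  unfold ff; split_ifs <;> norm_num

/-- the average over `Φ_N` -/
def avg (ε : ℝ) (f : GaussianInt → ℝ) (N : ℕ) : ℝ := (∑ z ∈ Phi ε N, f z) / ((Phi ε N).card : ℝ)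

theorem main {ε : ℝ} (hε : 0 < ε) : ∃ B : Set GaussianInt, (∀ q ∈ B, Prime q) ∧
    ¬ ∃ L, Tendsto (avg ε (ff B)) atTop (𝓝 L) := by
  set δ : ℝ := ε / (2 * (1 + ε)) with hδdef
  have hδ : 0 < δ := by rw [hδdef]; positivity
  have hT : ∀ k, ∃ T : ℕ, ∀ N ≥ T, ((small ε (KK δ k) N).card : ℝ) ≤
      (1 - δ) * ((Phi ε N).card : ℝ) := fun k =>
    eventually_atTop.mp (small_density hε (KK_pos δ k))
  choose T hT using hT
  set W : ℕ → ℕ := fun M => (Phi ε M).sup nm with hW
  set c : ℕ → ℕ := fun k => ⌈128 * ((k : ℝ) + 1) / δ⌉₊ + 1 with hc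
  obtain ⟨Nq, hN0, hNs⟩ : ∃ Nq : ℕ → ℕ, Nq 0 = T 0 + c 0 ∧
      ∀ k, Nq (k + 1) = T (k + 1) + W ((Nq k) ^ 2) + Nq k + c (k + 1) :=
    ⟨fun k => Nat.rec (T 0 + c 0) (fun k r => T (k + 1) + W (r ^ 2) + r + c (k + 1)) k,
      rfl, fun k => rfl⟩
  have hc1 : ∀ k, 1 ≤ c k := fun k => by simp only [hc]; omega
  have hNT : ∀ k, T k ≤ Nq k := by
    intro k
    cases k with
    | zero => rw [hN0]; omega
    | succ k => rw [hNs]; omega
  have hNc : ∀ k, c k ≤ Nq k := by
    intro k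
    cases k with
    | zero => rw [hN0]; omega
    | succ k => rw [hNs]; omega
  have hmono : StrictMono Nq := strictMono_nat_of_lt_succ (fun k => by
    rw [hNs]; have := hc1 (k + 1); omega)
  have hNW : ∀ k j, k < j → W ((Nq k) ^ 2) ≤ Nq j := by
    intro k j hkj
    have h1 : W ((Nq k) ^ 2) ≤ Nq (k + 1) := by rw [hNs]; omega
    exact h1.trans (hmono.monotone hkj)
  set B : Set GaussianInt := {q | ∃ k, q ∈ BB ε (KK δ k) (Nq k)} with hB
  have hBp : ∀ q ∈ B, Prime q := by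
    rintro q ⟨k, hk⟩
    exact (mem_BB hk).1
  refine ⟨B, hBp, ?_⟩
  rintro ⟨L, hL⟩
  have hNpos : ∀ k, 1 ≤ Nq k := fun k => (hc1 k).trans (hNc k)
  have hPhipos : ∀ N, 1 ≤ N → (0 : ℝ) < ((Phi ε N).card : ℝ) := by
    intro N hN
    rw [card_Phi]
    have : 0 < (2 * N - 1) ^ 2 := by
      have : 0 < 2 * N - 1 := by omega
      positivity
    exact_mod_cast this
  -- killing scales
  have hkill : ∀ k, avg ε (ff B) (Nq k) ≤ 1 - δ := by
    intro k
    unfold avg
    rw [div_le_iff₀ (hPhipos _ (hNpos k))]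
    refine le_trans ?_ (hT k (Nq k) (hNT k))
    have h1 : ∑ z ∈ Phi ε (Nq k), ff B z ≤ ∑ z ∈ Phi ε (Nq k),
        if (¬ ∃ q, Prime q ∧ q ∣ z ∧ (KK δ k) * (Nq k) ^ 2 < nm q) then (1 : ℝ) else 0 := by
      apply Finset.sum_le_sum
      intro z hz
      split_ifs with hcase
      · have hz2 : ff B z = 0 := by
          unfold ff
          rw [if_pos]
          refine ⟨bigP ((KK δ k) * (Nq k) ^ 2) z, ⟨k, ?_⟩, (bigP_spec hcase).2.1⟩
          unfold BB
          rw [Finset.mem_image]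
          exact ⟨z, Finset.mem_filter.mpr ⟨hz, hcase⟩, rfl⟩
        rw [hz2]
      · exact ff_le_one _ _
    refine h1.trans (le_of_eq ?_)
    rw [Finset.sum_boole]
    rfl
  -- free scales
  have hfree : ∀ k, 1 - δ / 2 ≤ avg ε (ff B) ((Nq k) ^ 2) := by
    intro k
    set M : ℕ := (Nq k) ^ 2 with hM
    have hM1 : 1 ≤ M := Nat.one_le_pow _ _ (hNpos k)
    have hMr : (1 : ℝ) ≤ M := by exact_mod_cast hM1
    have hcardM : (M : ℝ) ^ 2 ≤ ((Phi ε M).card : ℝ) := by
      rw [card_Phi]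
      have : M ^ 2 ≤ (2 * M - 1) ^ 2 := Nat.pow_le_pow_left (by omega) 2
      exact_mod_cast this
    unfold avg
    rw [le_div_iff₀ (hPhipos _ hM1)]
    -- the bad set
    have hbad : (((Phi ε M).filter (fun z => ∃ q ∈ B, q ∣ z)).card : ℝ) ≤ δ / 2 * (M : ℝ) ^ 2 := by
      have hsub : (Phi ε M).filter (fun z => ∃ q ∈ B, q ∣ z) ⊆
          (range (k + 1)).biUnion (fun j => (BB ε (KK δ j) (Nq j)).biUnion
            (fun q => (Phi ε M).filter (fun z => q ∣ z))) := by
        intro z hz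
        rw [Finset.mem_filter] at hz
        obtain ⟨hz1, q, ⟨j, hj⟩, hqz⟩ := hz
        rw [Finset.mem_biUnion]
        refine ⟨j, ?_, ?_⟩
        · rw [mem_range]
          by_contra hcon
          have hkj : k < j := by omega
          have h1 := (mem_BB hj).2
          have h2 := nm_le_of_dvd hqz (Phi_ne_zero hε hz1)
          have h3 : nm z ≤ W M := Finset.le_sup (f := nm) hz1
          have h4 := hNW k j hkj
          have h5 : Nq j ≤ KK δ j * (Nq j) ^ 2 := by
            have h6 : Nq j ≤ (Nq j) ^ 2 := Nat.le_self_pow two_ne_zero _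
            have h7 := KK_pos δ j
            nlinarith
          rw [← hM] at h4
          omega
        · rw [Finset.mem_biUnion]
          exact ⟨q, hj, Finset.mem_filter.mpr ⟨hz1, hqz⟩⟩
      have h1 : (((Phi ε M).filter (fun z => ∃ q ∈ B, q ∣ z)).card : ℝ) ≤
          ∑ j ∈ range (k + 1), ∑ q ∈ BB ε (KK δ j) (Nq j),
            (((Phi ε M).filter (fun z => q ∣ z)).card : ℝ) := by
        have h2 := (card_le_card hsub).trans (card_biUnion_le)
        have h3 : ∑ j ∈ range (k + 1), ((BB ε (KK δ j) (Nq j)).biUnion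
            (fun q => (Phi ε M).filter (fun z => q ∣ z))).card ≤
            ∑ j ∈ range (k + 1), ∑ q ∈ BB ε (KK δ j) (Nq j),
            ((Phi ε M).filter (fun z => q ∣ z)).card :=
          Finset.sum_le_sum (fun j _ => card_biUnion_le)
        exact_mod_cast h2.trans h3
      have h2 : ∀ j ∈ range (k + 1), ∑ q ∈ BB ε (KK δ j) (Nq j),
            (((Phi ε M).filter (fun z => q ∣ z)).card : ℝ) ≤
            (δ / 8) * (1 / 2) ^ j * (M : ℝ) ^ 2 + 32 * (Nq k : ℝ) ^ 2 := by
        intro j hj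
        have hjk : j ≤ k := by have := mem_range.mp hj; omega
        have hNj : (1 : ℝ) ≤ Nq j := by exact_mod_cast hNpos j
        have hNjk : (Nq j : ℝ) ≤ Nq k := by exact_mod_cast hmono.monotone hjk
        have hKj : (1 : ℝ) ≤ KK δ j := by exact_mod_cast KK_pos δ j
        have h3 : ∀ q ∈ BB ε (KK δ j) (Nq j), (((Phi ε M).filter (fun z => q ∣ z)).card : ℝ) ≤
            16 * (M : ℝ) ^ 2 / (KK δ j * (Nq j : ℝ) ^ 2) + 8 := by
          intro q hq
          obtain ⟨hqp, hqn⟩ := mem_BB hq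
          have h4 := count_crude (shift ε M) M hqp.ne_zero
          have h5 : (KK δ j : ℝ) * (Nq j : ℝ) ^ 2 ≤ nm q := by exact_mod_cast hqn.le
          have h6 : 16 * (M : ℝ) ^ 2 / nm q ≤ 16 * (M : ℝ) ^ 2 / (KK δ j * (Nq j : ℝ) ^ 2) := by
            gcongr
          unfold Phi
          linarith
        calc ∑ q ∈ BB ε (KK δ j) (Nq j), (((Phi ε M).filter (fun z => q ∣ z)).card : ℝ)
            ≤ ∑ q ∈ BB ε (KK δ j) (Nq j), (16 * (M : ℝ) ^ 2 / (KK δ j * (Nq j : ℝ) ^ 2) + 8) :=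
              Finset.sum_le_sum h3
          _ = (BB ε (KK δ j) (Nq j)).card * (16 * (M : ℝ) ^ 2 / (KK δ j * (Nq j : ℝ) ^ 2) + 8) := by
              rw [sum_const, nsmul_eq_mul]
          _ ≤ (4 * (Nq j : ℝ) ^ 2) * (16 * (M : ℝ) ^ 2 / (KK δ j * (Nq j : ℝ) ^ 2) + 8) := by
              apply mul_le_mul_of_nonneg_right (card_BB_le _ _ _) (by positivity)
          _ = 64 / (KK δ j : ℝ) * (M : ℝ) ^ 2 + 32 * (Nq j : ℝ) ^ 2 := by
              field_simp
              ring
          _ ≤ (δ / 8) * (1 / 2) ^ j * (M : ℝ) ^ 2 + 32 * (Nq k : ℝ) ^ 2 := by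
              apply add_le_add
              · exact mul_le_mul_of_nonneg_right (inv_KK hδ j) (by positivity)
              · gcongr
      have h3 := h1.trans (Finset.sum_le_sum h2)
      rw [Finset.sum_add_distrib, Finset.sum_const, card_range, nsmul_eq_mul, ← Finset.sum_mul,
        ← Finset.mul_sum] at h3
      have h4 : ∑ j ∈ range (k + 1), (1 / 2 : ℝ) ^ j ≤ 2 := by
        have h5 : ∀ n : ℕ, ∑ j ∈ range n, (1 / 2 : ℝ) ^ j = 2 - 2 * (1 / 2) ^ n := by
          intro n
          induction n with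
          | zero => simp
          | succ n ih => rw [sum_range_succ, ih, pow_succ]; ring
        rw [h5]
        have : (0 : ℝ) ≤ (1 / 2) ^ (k + 1) := by positivity
        linarith
      have h5 : (128 * ((k : ℝ) + 1) / δ) ≤ (Nq k : ℝ) := by
        have h6 : (c k : ℝ) ≤ Nq k := by exact_mod_cast hNc k
        have h7 : 128 * ((k : ℝ) + 1) / δ ≤ c k := by
          simp only [hc]; push_cast
          linarith [Nat.le_ceil (128 * ((k : ℝ) + 1) / δ)]
        linarith
      rw [div_le_iff₀ hδ] at h5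
      have hNk : (1 : ℝ) ≤ Nq k := by exact_mod_cast hNpos k
      have h6 : ((k + 1 : ℕ) : ℝ) * (32 * (Nq k : ℝ) ^ 2) ≤ δ / 4 * (M : ℝ) ^ 2 := by
        have e : (M : ℝ) = (Nq k : ℝ) ^ 2 := by rw [hM]; push_cast; ring
        rw [e]
        push_cast
        have h8 : (Nq k : ℝ) ≤ (Nq k : ℝ) ^ 2 := by nlinarith
        have h9 : 128 * ((k : ℝ) + 1) ≤ (Nq k : ℝ) ^ 2 * δ := h5.trans (by gcongr)
        have h10 : 0 ≤ (Nq k : ℝ) ^ 2 := by positivity
        nlinarith [mul_le_mul_of_nonneg_right h9 h10]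
      have h7 : δ / 8 * (∑ j ∈ range (k + 1), (1 / 2 : ℝ) ^ j) * (M : ℝ) ^ 2 ≤
          δ / 4 * (M : ℝ) ^ 2 := by
        have : δ / 8 * (∑ j ∈ range (k + 1), (1 / 2 : ℝ) ^ j) ≤ δ / 4 := by nlinarith
        exact mul_le_mul_of_nonneg_right this (by positivity)
      linarith
    have hsum : ((Phi ε M).card : ℝ) - (((Phi ε M).filter (fun z => ∃ q ∈ B, q ∣ z)).card : ℝ) ≤
        ∑ z ∈ Phi ε M, ff B z := by
      have h1 : ∑ z ∈ Phi ε M, ff B z = ∑ z ∈ Phi ε M, ((1 : ℝ) -
          (if ∃ q ∈ B, q ∣ z then 1 else 0)) := by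
        apply Finset.sum_congr rfl
        intro z _
        unfold ff
        split_ifs <;> norm_num
      rw [h1, Finset.sum_sub_distrib, Finset.sum_const, nsmul_eq_mul, mul_one, Finset.sum_boole]
    nlinarith
  have hlim1 := hL.comp hmono.tendsto_atTop
  have hlim2 : Tendsto (fun k => avg ε (ff B) ((Nq k) ^ 2)) atTop (𝓝 L) :=
    hL.comp ((tendsto_pow_atTop two_ne_zero).comp hmono.tendsto_atTop)
  have h1 : L ≤ 1 - δ := le_of_tendsto' hlim1 hkill
  have h2 : 1 - δ / 2 ≤ L := ge_of_tendsto' hlim2 hfree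
  linarith

/-- **Result.**  For every `ε > 0` there is a completely multiplicative function `f` on the
Gaussian integers with values in `{0, 1}` whose averages over the shifted squares
`Φ_N = ⌊N^(1+ε)⌋ + Q_N` do not converge. -/
theorem result : ∀ ε : ℝ, 0 < ε → ∃ f : GaussianInt → ℝ,
    (∀ m n : GaussianInt, m ≠ 0 → n ≠ 0 → f (m * n) = f m * f n) ∧
    (∀ n, f n = 0 ∨ f n = 1) ∧ f 1 = 1 ∧ (∃ C : ℝ, ∀ n, n ≠ 0 → |f n| ≤ C) ∧
    ¬ ∃ L : ℝ, Tendsto (fun N : ℕ => (∑ z ∈ Phi ε N, f z) / ((Phi ε N).card : ℝ)) atTop (𝓝 L) := by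
  intro ε hε
  obtain ⟨B, hB, hL⟩ := main hε
  refine ⟨ff B, fun m n _ _ => ff_mul hB m n, ?_, ?_, ⟨1, ?_⟩, hL⟩
  · intro n
    unfold ff
    split_ifs <;> simp
  · unfold ff
    rw [if_neg]
    rintro ⟨q, hq, hd⟩
    exact (hB q hq).not_isUnit (isUnit_of_dvd_one hd)
  · intro n _
    rw [abs_of_nonneg (ff_nonneg B n)]
    exact ff_le_one B n

end

end Pool.Agent.Results.MP_acc225_nt.FarSquares
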